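import Pool.Agent.Lib.MP_1a97ab_gt.Iso
import Pool.Agent.Shared.NullIn

set_option autoImplicit false
set_option linter.unusedSectionVars false

open Set Metric Pool.Agent.Shared.Brouwer
open scoped NNReal Topology

namespace Pool.Agent.Lib.MP_1a97ab_gt

variable {V : Type} [NormedAddCommGroup V] [InnerProductSpace ℝ V] [FiniteDimensional ℝ V]

/-- `A` is empty or a translate of the subspace `W`. -/
def Flat (W : Submodule ℝ V) (A : Set V) : Prop := ∀ a ∈ A, ∀ x, x ∈ A ↔ x - a ∈ W

/-- The interior of `B` relative to `A`. -/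
def rint (A B : Set V) : Set V := {x | x ∈ A ∧ B ∈ 𝓝[A] x}

/-- The boundary of `B` relative to `A`. -/
def rbd (A B : Set V) : Set V := B \ rint A B

/-- A convex body in the flat `A`. -/
structure Body (W : Submodule ℝ V) (A B : Set V) : Prop where
  flat : Flat W A
  conv : Convex ℝ B
  cpt : IsCompact B
  sub : B ⊆ A
  ne : (rint A B).Nonempty

variable {W : Submodule ℝ V} {A B B' C : Set V}

theorem Flat.add_mem (h : Flat W A) {o w : V} (ho : o ∈ A) : o + w ∈ A ↔ w ∈ W := by
  rw [h o ho, add_sub_cancel_left]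

theorem Flat.isClosed (h : Flat W A) : IsClosed A := by
  rcases A.eq_empty_or_nonempty with rfl | ⟨a, ha⟩
  · exact isClosed_empty
  · have : A = (fun x => x - a) ⁻¹' W := Set.ext (h a ha)
    rw [this]
    exact W.closed_of_finiteDimensional.preimage (by fun_prop)

theorem Flat.convex (h : Flat W A) : Convex ℝ A := by
  intro x hx y hy a b _ _ hab
  rw [h x hx]
  have : a • x + b • y - x = b • (y - x) := by
    have : a = 1 - b := by linarith
    rw [this, sub_smul, one_smul, smul_sub]; abel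
  rw [this]
  exact W.smul_mem _ ((h x hx y).mp hy)

theorem rint_subset : rint A B ⊆ B := fun _ hx => mem_of_mem_nhdsWithin hx.1 hx.2

theorem rint_subset_flat : rint A B ⊆ A := fun _ hx => hx.1

theorem mem_rint_iff {x : V} :
    x ∈ rint A B ↔ x ∈ A ∧ ∃ ε > 0, ∀ y ∈ A, dist y x < ε → y ∈ B := by
  unfold rint
  simp only [mem_setOf_eq, Metric.mem_nhdsWithin_iff]
  refine and_congr_right fun _ => exists_congr fun ε => and_congr_right fun _ => ?_
  exact ⟨fun h y hy hd => h ⟨hd, hy⟩, fun h y hy => h y hy.2 hy.1⟩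

theorem rint_mono (h : B ⊆ B') : rint A B ⊆ rint A B' :=
  fun _ hx => ⟨hx.1, Filter.mem_of_superset hx.2 h⟩

theorem isOpen_nhdsWithin_set (A B : Set V) : IsOpen {x | B ∈ 𝓝[A] x} := by
  rw [isOpen_iff_mem_nhds]
  intro x hx
  exact eventually_nhds_nhdsWithin.mpr hx

theorem isCompact_diff_rint (hC : IsCompact C) (hCA : C ⊆ A) : IsCompact (C \ rint A B) := by
  have : C \ rint A B = C \ {x | B ∈ 𝓝[A] x} := by
    ext x
    exact ⟨fun h => ⟨h.1, fun k => h.2 ⟨hCA h.1, k⟩⟩, fun h => ⟨h.1, fun k => h.2 k.2⟩⟩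
  rw [this]
  exact hC.diff (isOpen_nhdsWithin_set A B)

theorem Body.isCompact_rbd (h : Body W A B) : IsCompact (rbd A B) := isCompact_diff_rint h.cpt h.sub

theorem rbd_subset : rbd A B ⊆ B := diff_subset

/-- The gauge of a body with respect to a point of its relative interior. -/
structure Gauge (W : Submodule ℝ V) (A B : Set V) (o : V) (N : V → ℝ) : Prop where
  lip : ∃ L : ℝ≥0, LipschitzWith L N
  hom : ∀ t : ℝ, 0 ≤ t → ∀ w, N (t • w) = t * N w
  low : ∃ c : ℝ, 0 < c ∧ ∀ w ∈ W, c * ‖w‖ ≤ N w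
  le : ∀ w ∈ W, o + w ∈ B ↔ N w ≤ 1
  lt : ∀ w ∈ W, o + w ∈ rint A B ↔ N w < 1

theorem Body.exists_gauge (h : Body W A B) {o : V} (ho : o ∈ rint A B) : ∃ N, Gauge W A B o N := by
  let C : Set V := {w | o + W.starProjection w ∈ B}
  have hπ : ∀ w ∈ W, W.starProjection w = w := fun w hw => Submodule.starProjection_eq_self_iff.mpr hw
  have hA : ∀ w, o + W.starProjection w ∈ A := fun w =>
    (h.flat.add_mem ho.1).mpr (W.starProjection_apply_mem w)
  have hconv : Convex ℝ C := by
    intro x hx y hy a b ha hb hab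
    have := h.conv hx hy ha hb hab
    change o + W.starProjection (a • x + b • y) ∈ B
    convert this using 1
    rw [map_add, map_smul, map_smul, smul_add, smul_add]
    have : o = a • o + b • o := by rw [← add_smul, hab, one_smul]
    conv_lhs => rw [this]
    abel
  have hint : ∀ w ∈ W, o + w ∈ rint A B → C ∈ 𝓝 w := by
    intro w hw hr
    obtain ⟨-, ε, hε, hb⟩ := mem_rint_iff.mp hr
    refine Metric.mem_nhds_iff.mpr ⟨ε, hε, fun v hv => hb _ (hA v) ?_⟩
    rw [dist_add_left, dist_eq_norm]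
    conv_lhs => rw [← hπ w hw, ← map_sub]
    exact (W.norm_starProjection_apply_le _).trans_lt (mem_ball_iff_norm.mp hv)
  have h0 : C ∈ 𝓝 0 := hint 0 W.zero_mem (by simpa using ho)
  have hcl : IsClosed C := h.cpt.isClosed.preimage (by fun_prop)
  have hle : ∀ w ∈ W, o + w ∈ B ↔ gauge C w ≤ 1 := by
    intro w hw
    rw [gauge_le_one_iff_mem_closure hconv h0, hcl.closure_eq]
    simp only [C, mem_setOf_eq, hπ w hw]
  have hhom : ∀ t : ℝ, 0 ≤ t → ∀ w, gauge C (t • w) = t * gauge C w :=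
    fun t ht w => gauge_smul_of_nonneg ht w
  refine ⟨gauge C, hconv.lipschitz_gauge h0, hhom, ?_, hle, fun w hw => ?_⟩
  · obtain ⟨R, hR0, hR⟩ := h.cpt.isBounded.subset_closedBall_lt 0 o
    refine ⟨R⁻¹, inv_pos.mpr hR0, fun w hw => ?_⟩
    apply le_of_forall_pos_le_add
    intro ε hε
    have hp : 0 < gauge C w + ε := add_pos_of_nonneg_of_pos (gauge_nonneg _) hε
    have h1 : o + (gauge C w + ε)⁻¹ • w ∈ B := by
      rw [hle _ (W.smul_mem _ hw), hhom _ (inv_pos.mpr hp).le, inv_mul_le_iff₀ hp]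
      linarith
    have h2 := hR h1
    rw [mem_closedBall, dist_self_add_left, norm_smul, norm_inv, Real.norm_of_nonneg hp.le,
      inv_mul_le_iff₀ hp] at h2
    rw [inv_mul_le_iff₀ hR0]
    linarith
  · rw [gauge_lt_one_iff_mem_interior hconv h0, mem_interior_iff_mem_nhds]
    refine ⟨hint w hw, fun hn => ?_⟩
    obtain ⟨ε, hε, hb⟩ := Metric.mem_nhds_iff.mp hn
    refine mem_rint_iff.mpr ⟨(h.flat.add_mem ho.1).mpr hw, ε, hε, fun y hy hd => ?_⟩
    have h1 : y - o ∈ W := (h.flat o ho.1 y).mp hy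
    have h2 : y - o ∈ ball w ε := by
      rw [mem_ball, dist_eq_norm] at *
      rwa [sub_sub]
    have h3 : o + W.starProjection (y - o) ∈ B := hb h2
    rwa [hπ _ h1, add_sub_cancel] at h3

section Gauge

variable {o : V} {N : V → ℝ}

theorem Gauge.continuous (h : Gauge W A B o N) : Continuous N := by
  obtain ⟨L, hL⟩ := h.lip
  exact hL.continuous

theorem Gauge.zero (h : Gauge W A B o N) : N 0 = 0 := by simpa using h.hom 0 le_rfl 0

theorem Gauge.pos (h : Gauge W A B o N) {w : V} (hw : w ∈ W) (h0 : w ≠ 0) : 0 < N w := by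
  obtain ⟨c, hc, hl⟩ := h.low
  exact lt_of_lt_of_le (mul_pos hc (norm_pos_iff.mpr h0)) (hl w hw)

theorem Gauge.nonneg (h : Gauge W A B o N) {w : V} (hw : w ∈ W) : 0 ≤ N w := by
  obtain ⟨c, hc, hl⟩ := h.low
  exact le_trans (by positivity) (hl w hw)

theorem Gauge.eq (h : Gauge W A B o N) {w : V} (hw : w ∈ W) : o + w ∈ rbd A B ↔ N w = 1 := by
  unfold rbd
  rw [mem_diff, h.le w hw, h.lt w hw, not_lt]
  exact ⟨fun k => le_antisymm k.1 k.2, fun k => ⟨k.le, k.ge⟩⟩

theorem Gauge.exit (h : Gauge W A B o N) {w : V} (hw : w ∈ W) (h0 : w ≠ 0) :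
    o + (N w)⁻¹ • w ∈ rbd A B := by
  have := h.pos hw h0
  rw [h.eq (W.smul_mem _ hw), h.hom _ (inv_pos.mpr this).le, inv_mul_cancel₀ this.ne']

end Gauge

theorem Body.segment_mem (h : Body W A B) {x y : V} (hx : x ∈ rint A B) (hy : y ∈ B) {τ : ℝ}
    (h0 : 0 ≤ τ) (h1 : τ < 1) : (1 - τ) • x + τ • y ∈ rint A B := by
  obtain ⟨N, hN⟩ := h.exists_gauge hx
  have hw : y - x ∈ W := (h.flat x hx.1 y).mp (h.sub hy)
  have e : (1 - τ) • x + τ • y = x + τ • (y - x) := by
    rw [sub_smul, one_smul, smul_sub]; abel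
  rw [e, hN.lt _ (W.smul_mem _ hw), hN.hom _ h0]
  have : N (y - x) ≤ 1 := (hN.le _ hw).mp (by simpa using hy)
  nlinarith

theorem Body.convex_rint (h : Body W A B) : Convex ℝ (rint A B) := by
  intro x hx y hy a b ha hb hab
  rcases hb.eq_or_lt with rfl | hb'
  · have : a = 1 := by linarith
    simpa [this] using hx
  · have := h.segment_mem hy (rint_subset hx) ha (by linarith)
    have e : b = 1 - a := by linarith
    rwa [add_comm, ← e] at this

/-- The boundary of a body is essential around a point of the relative interior. -/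
theorem Body.not_nullIn (h : Body W A B) {o : V} (ho : o ∈ rint A B) {Y : Type}
    [NormedAddCommGroup Y] [NormedSpace ℝ Y] (e : W ≃L[ℝ] Y) (T : V → Y)
    (hT : ∀ w : W, T (o + w) = e w) : ¬ NullIn T (rbd A B) {0}ᶜ := by
  intro hn
  obtain ⟨N, hN⟩ := h.exists_gauge ho
  apply not_nullIn_level (fun w : W => N w) (hN.continuous.comp continuous_subtype_val)
    (fun w hw => hN.pos w.2 (fun k => hw (Subtype.ext k)))
    (fun t w ht => hN.hom t ht.le w)
  have h1 := (hn.comp_right (g := fun w : W => o + (w : V)) (r := {w : W | N w = 1})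
    (by fun_prop) (fun w hw => (hN.eq w.2).mpr hw)).comp_left (g := e.symm) (u := {0}ᶜ)
    e.symm.continuous.continuousOn (fun y hy => by simpa using hy)
  exact h1.congr (fun w _ => by simp [hT])

theorem Body.not_nullIn_flat (h : Body W A B) {o : V} (ho : o ∈ rint A B) :
    ¬ NullIn (fun x => x) (rbd A B) (A \ {o}) := by
  intro hn
  apply h.not_nullIn ho (ContinuousLinearEquiv.refl ℝ W)
    (fun x => W.orthogonalProjectionOnto (x - o)) (fun w => by simp)
  refine hn.comp_left (by fun_prop) ?_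
  rintro x ⟨hx, hx0⟩ h0
  have hw : x - o ∈ W := (h.flat o ho.1 x).mp hx
  have h1 : W.orthogonalProjectionOnto (x - o) = 0 := h0
  have h2 : W.starProjection (x - o) = 0 := by
    rw [Submodule.starProjection_apply, h1]; rfl
  rw [Submodule.starProjection_eq_self_iff.mpr hw] at h2
  exact hx0 (sub_eq_zero.mp h2)

theorem exists_inverse {X Y : Type} [TopologicalSpace X] [TopologicalSpace Y] [T2Space Y]
    [Nonempty X] {φ : X → Y} {D : Set X} (hD : IsCompact D) (hc : ContinuousOn φ D)
    (hi : InjOn φ D) : ∃ ψ : Y → X, ContinuousOn ψ (φ '' D) ∧ ∀ x ∈ D, ψ (φ x) = x := by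
  refine ⟨Function.invFunOn φ D, ?_, fun x hx => hi.leftInvOn_invFunOn hx⟩
  rw [continuousOn_iff_isClosed]
  intro t ht
  refine ⟨φ '' (D ∩ t), ((hD.inter_right ht).image_of_continuousOn
    (hc.mono inter_subset_left)).isClosed, ?_⟩
  ext y
  constructor
  · rintro ⟨hy, x, hx, rfl⟩
    rw [mem_preimage, hi.leftInvOn_invFunOn hx] at hy
    exact ⟨⟨x, ⟨hx, hy⟩, rfl⟩, x, hx, rfl⟩
  · rintro ⟨⟨x, ⟨hx, ht⟩, rfl⟩, h2⟩
    refine ⟨?_, h2⟩
    rwa [mem_preimage, hi.leftInvOn_invFunOn hx]

theorem BoundsBall.subset {F : Set V} (h : BoundsBall B F) : F ⊆ B := by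
  obtain ⟨k, φ, -, -, rfl, rfl⟩ := h
  exact image_mono sphere_subset_closedBall

theorem BoundsBall.nonempty {F : Set V} (h : BoundsBall B F) : F.Nonempty := by
  obtain ⟨k, φ, -, -, -, rfl⟩ := h
  exact (NormedSpace.sphere_nonempty.mpr zero_le_one).image _

theorem BoundsBall.nullIn {F : Set V} (h : BoundsBall B F) : NullIn (fun x => x) F B := by
  have hsub := h.subset
  obtain ⟨k, φ, h1, h2, rfl, rfl⟩ := h
  obtain ⟨ψ, k1, k2⟩ := exists_inverse (isCompact_closedBall _ _) h1 h2
  have hm : MapsTo ψ (φ '' closedBall 0 1) (closedBall 0 1) := by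
    rintro _ ⟨x, hx, rfl⟩
    rwa [k2 x hx]
  have n1 : NullIn ψ (φ '' sphere 0 1) (closedBall 0 1) := by
    refine nullIn_of_star (mem_closedBall_self zero_le_one) (k1.mono hsub) ?_
    intro x hx τ t0 t1
    exact convex_closedBall _ _ (hm (hsub hx)) (mem_closedBall_self zero_le_one) (by linarith) t0
      (by ring)
  refine (n1.comp_left h1 (mapsTo_image _ _)).congr ?_
  rintro _ ⟨x, hx, rfl⟩
  simp only [k2 x (sphere_subset_closedBall hx)]

theorem BoundsBall.image {F : Set V} (h : BoundsBall B F) {ρ : V → V} (hc : ContinuousOn ρ B)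
    (hi : InjOn ρ B) : BoundsBall (ρ '' B) (ρ '' F) := by
  obtain ⟨k, φ, h1, h2, rfl, rfl⟩ := h
  exact ⟨k, ρ ∘ φ, hc.comp h1 (mapsTo_image _ _), hi.comp h2 (mapsTo_image _ _),
    image_comp _ _ _, image_comp _ _ _⟩

/-- A knot bounding a convex ball is the relative boundary of a convex body. -/
theorem body_of_convex {F : Set V} (hc : Convex ℝ B) (h : BoundsBall B F) :
    ∃ W A, Body W A B ∧ F = rbd A B := by
  have hne : B.Nonempty := h.nonempty.mono h.subset
  obtain ⟨k, φ, h1, h2, hB, hF⟩ := h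
  have hcpt : IsCompact B := hB ▸ (isCompact_closedBall _ _).image_of_continuousOn h1
  have hb : Body (affineSpan ℝ B).direction (affineSpan ℝ B) B := by
    refine ⟨fun a ha x => (AffineSubspace.vsub_right_mem_direction_iff_mem ha x).symm, hc, hcpt,
      subset_affineSpan ℝ B, ?_⟩
    obtain ⟨x, hx⟩ := hne.intrinsicInterior hc
    obtain ⟨y, hy, rfl⟩ := mem_intrinsicInterior.mp hx
    exact ⟨y, y.2, preimage_coe_mem_nhds_subtype.mp (mem_interior_iff_mem_nhds.mp hy)⟩
  refine ⟨_, _, hb, ?_⟩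
  obtain ⟨ψ, k1, k2⟩ := exists_inverse (isCompact_closedBall _ _) h1 h2
  rw [hB] at k1
  have hm : MapsTo ψ B (closedBall 0 1) := by
    rw [← hB]
    rintro _ ⟨x, hx, rfl⟩
    rwa [k2 x hx]
  have k3 : ∀ y ∈ B, φ (ψ y) = y := by
    rw [← hB]
    rintro _ ⟨x, hx, rfl⟩
    rw [k2 x hx]
  have hφm : MapsTo φ (closedBall 0 1) B := hB ▸ mapsTo_image _ _
  apply Subset.antisymm
  · rw [← hF]
    rintro _ ⟨ξ, hξ, rfl⟩
    have hξ' := sphere_subset_closedBall hξ
    refine ⟨hφm hξ', fun hr => hb.not_nullIn_flat hr ?_⟩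
    have n1 : NullIn ψ (rbd (affineSpan ℝ B) B) (closedBall 0 1 \ {ξ}) := by
      have hξ1 : ‖ξ‖ = 1 := mem_sphere_zero_iff_norm.mp hξ
      refine nullIn_of_star (y := 0) ⟨mem_closedBall_self zero_le_one, ?_⟩ (k1.mono rbd_subset) ?_
      · rintro rfl; simp at hξ1
      · intro x hx τ t0 t1
        have hx1 := hm (rbd_subset hx)
        refine ⟨convex_closedBall _ _ hx1 (mem_closedBall_self zero_le_one) (by linarith) t0
          (by ring), ?_⟩
        intro he
        rw [mem_singleton_iff, smul_zero, add_zero] at he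
        have hn := congrArg norm he
        rw [norm_smul, Real.norm_of_nonneg (by linarith), hξ1] at hn
        have hx2 := mem_closedBall_zero_iff.mp hx1
        have : τ = 0 := by nlinarith [norm_nonneg (ψ x)]
        rw [this, sub_zero, one_smul] at he
        apply hx.2
        rw [← k3 x (rbd_subset hx), he]
        exact hr
    refine (n1.comp_left (u := (affineSpan ℝ B : Set V) \ {φ ξ}) (h1.mono diff_subset) ?_).congr
      (fun x hx => (k3 x (rbd_subset hx)).symm)
    rintro x ⟨hx, hx'⟩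
    exact ⟨hb.sub (hφm hx), fun he => hx' (h2 hx hξ' he)⟩
  · intro x hx
    by_contra hxF
    have hξ := hm (rbd_subset hx)
    have hξ1 : ‖ψ x‖ < 1 := by
      rcases (mem_closedBall_zero_iff.mp hξ).lt_or_eq with h | h
      · exact h
      · exact absurd (hF ▸ ⟨ψ x, mem_sphere_zero_iff_norm.mpr h, k3 x (rbd_subset hx)⟩) hxF
    obtain ⟨o, ho⟩ := hb.ne
    have n1 : NullIn φ (sphere 0 1) (B \ {x}) := by
      refine nullIn_of_star (y := o) ⟨rint_subset ho, fun he => hx.2 (he ▸ ho)⟩
        (h1.mono sphere_subset_closedBall) ?_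
      intro y hy τ t0 t1
      have hy' := hφm (sphere_subset_closedBall hy)
      refine ⟨hc hy' (rint_subset ho) (by linarith) t0 (by ring), fun he => ?_⟩
      rw [mem_singleton_iff] at he
      rcases t0.eq_or_lt with rfl | t0'
      · apply hxF
        rw [← hF, ← he]
        exact ⟨y, hy, by simp⟩
      · have := hb.segment_mem ho hy' (τ := 1 - τ) (by linarith) (by linarith)
        rw [sub_sub_cancel, add_comm, he] at this
        exact hx.2 this
    have n2 := n1.comp_left (g := fun y => ψ y - ψ x) (u := {0}ᶜ)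
      ((k1.mono diff_subset).sub continuousOn_const) (by
        rintro y ⟨hy, hy'⟩ he
        apply hy'
        rw [mem_singleton_iff, ← k3 y hy, sub_eq_zero.mp he, k3 x (rbd_subset hx)])
    apply not_nullIn_sphere (E := Euc (k + 1))
    have n3 : NullIn (fun y => y - ψ x) (sphere (0 : Euc (k + 1)) 1) {0}ᶜ :=
      n2.congr (fun y hy => by simp only [k2 y (sphere_subset_closedBall hy)])
    refine n3.of_segment continuousOn_id (by fun_prop) ?_
    intro y hy τ t0 t1 he
    have e : (1 - τ) • y + τ • (y - ψ x) = y - τ • ψ x := by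
      rw [sub_smul, one_smul, smul_sub]; abel
    rw [mem_singleton_iff, e, sub_eq_zero] at he
    have hn := congrArg norm he
    rw [norm_smul, Real.norm_of_nonneg t0, mem_sphere_zero_iff_norm.mp hy] at hn
    nlinarith [norm_nonneg (ψ x)]

/-- Any two bodies in the same flat give homeomorphic pairs. -/
theorem Body.boundsBall (h : Body W A B) (h' : Body W A B') (hb : BoundsBall B (rbd A B)) :
    BoundsBall B' (rbd A B') := by
  obtain ⟨o, ho⟩ := h.ne
  have key : ∀ {D : Set V}, Body W A D → Convex ℝ {w : W | o + (w : V) ∈ D} ∧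
      IsCompact {w : W | o + (w : V) ∈ D} ∧
      interior {w : W | o + (w : V) ∈ D} = {w : W | o + (w : V) ∈ rint A D} ∧
      (interior {w : W | o + (w : V) ∈ D}).Nonempty := by
    intro D hD
    have e : interior {w : W | o + (w : V) ∈ D} = {w : W | o + (w : V) ∈ rint A D} := by
      ext w
      rw [mem_interior_iff_mem_nhds, Metric.mem_nhds_iff, mem_setOf_eq, mem_rint_iff]
      constructor
      · rintro ⟨ε, hε, hb⟩
        refine ⟨(h.flat.add_mem ho.1).mpr w.2, ε, hε, fun y hy hd => ?_⟩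
        have h1 : y - o ∈ W := (h.flat o ho.1 y).mp hy
        have h2 : (⟨y - o, h1⟩ : W) ∈ ball w ε := by
          rw [mem_ball, Subtype.dist_eq, dist_eq_norm] at *
          rwa [sub_sub]
        simpa using hb h2
      · rintro ⟨-, ε, hε, hb⟩
        refine ⟨ε, hε, fun v hv => hb _ ((h.flat.add_mem ho.1).mpr v.2) ?_⟩
        rwa [dist_add_left]
    refine ⟨?_, ?_, e, ?_⟩
    · intro x hx y hy a b ha hb hab
      have := hD.conv hx hy ha hb hab
      change o + ((a • x + b • y : W) : V) ∈ D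
      convert this using 1
      rw [Submodule.coe_add, Submodule.coe_smul, Submodule.coe_smul, smul_add, smul_add]
      have : o = a • o + b • o := by rw [← add_smul, hab, one_smul]
      conv_lhs => rw [this]
      abel
    · exact ((Homeomorph.addLeft o).isClosedEmbedding.comp
        W.closed_of_finiteDimensional.isClosedEmbedding_subtypeVal).isCompact_preimage hD.cpt
    · obtain ⟨p, hp⟩ := hD.ne
      rw [e]
      exact ⟨⟨p - o, (h.flat o ho.1 p).mp hp.1⟩, by simpa using hp⟩
  obtain ⟨c1, c2, c3, c4⟩ := key h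
  obtain ⟨d1, d2, d3, d4⟩ := key h'
  obtain ⟨e, e1, e2, -⟩ := exists_homeomorph_image_eq c1 c4
    (NormedSpace.isVonNBounded_of_isBounded _ c2.isBounded) d1 d4
    (NormedSpace.isVonNBounded_of_isBounded _ d2.isBounded)
  rw [c2.isClosed.closure_eq, d2.isClosed.closure_eq] at e2
  rw [c3, d3] at e1
  let ρ : V → V := fun x => o + (e (W.orthogonalProjectionOnto (x - o)) : V)
  have hρ : ∀ w : W, ρ (o + w) = o + e w := fun w => by simp [ρ]
  have hrep : ∀ x ∈ A, ∃ w : W, x = o + w := fun x hx =>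
    ⟨⟨x - o, (h.flat o ho.1 x).mp hx⟩, by simp⟩
  have himg : ∀ {D D' : Set V}, D ⊆ A → D' ⊆ A →
      e '' {w : W | o + (w : V) ∈ D} = {w : W | o + (w : V) ∈ D'} → ρ '' D = D' := by
    intro D D' hD hD' he
    apply Subset.antisymm
    · rintro _ ⟨x, hx, rfl⟩
      obtain ⟨w, rfl⟩ := hrep x (hD hx)
      rw [hρ]
      have : e w ∈ e '' {w : W | o + (w : V) ∈ D} := ⟨w, hx, rfl⟩
      rwa [he] at this
    · intro y hy
      obtain ⟨w, rfl⟩ := hrep y (hD' hy)
      have : w ∈ e '' {w : W | o + (w : V) ∈ D} := he ▸ hy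
      obtain ⟨v, hv, rfl⟩ := this
      exact ⟨o + v, hv, hρ v⟩
  have hinj : InjOn ρ A := by
    intro x hx y hy he
    obtain ⟨v, rfl⟩ := hrep x hx
    obtain ⟨w, rfl⟩ := hrep y hy
    rw [hρ, hρ] at he
    rw [e.injective (Subtype.ext (add_left_cancel he))]
  have r1 := himg h.sub h'.sub e2
  have r2 := himg rint_subset_flat rint_subset_flat e1
  have := hb.image (ρ := ρ) (by fun_prop) (hinj.mono h.sub)
  rwa [r1, rbd, (hinj.mono h.sub).image_diff_subset rint_subset, r1, r2] at this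

end Pool.Agent.Lib.MP_1a97ab_gt
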