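import Mathlib

set_option autoImplicit false

open Set Metric

namespace Pool.Agent.Lib.MP_1a97ab_gt

/-- Euclidean `n`-space. -/
abbrev Euc (n : ℕ) : Type := EuclideanSpace ℝ (Fin n)

section

variable {V : Type} [NormedAddCommGroup V] [NormedSpace ℝ V]

/-- A knot: a subset homeomorphic to a sphere `S^k` for some `k`. -/
def IsKnot (F : Set V) : Prop := ∃ k : ℕ, Nonempty (F ≃ₜ sphere (0 : Euc (k + 1)) 1)

/-- `F` bounds the ball `B`: for some `k`, a continuous injective map on the closed unit ball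
`D^(k+1)` has image `B` and sends the boundary sphere `S^k` onto `F`. -/
def BoundsBall (B F : Set V) : Prop :=
  ∃ (k : ℕ) (φ : Euc (k + 1) → V), ContinuousOn φ (closedBall 0 1) ∧ InjOn φ (closedBall 0 1) ∧
    φ '' closedBall 0 1 = B ∧ φ '' sphere 0 1 = F

/-- A link with components `F i`: pairwise disjoint knots. -/
def IsLink {m : ℕ} (F : Fin m → Set V) : Prop :=
  (∀ i, IsKnot (F i)) ∧ ∀ i j, i ≠ j → Disjoint (F i) (F j)

/-- The sublink on the components in `s` is an unlink. -/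
def IsUnlinkOn {m : ℕ} (F : Fin m → Set V) (s : Set (Fin m)) : Prop :=
  ∀ i ∈ s, ∃ B, BoundsBall B (F i) ∧ ∀ j ∈ s, j ≠ i → Disjoint B (F j)

/-- At least three components, not an unlink, and every proper sublink is an unlink. -/
def IsBrunnian {m : ℕ} (F : Fin m → Set V) : Prop :=
  3 ≤ m ∧ ¬ IsUnlinkOn F univ ∧ ∀ s : Set (Fin m), s ≠ univ → IsUnlinkOn F s

/-- A knot is convex if it bounds a convex ball. -/
def IsConvexKnot (F : Set V) : Prop := ∃ B, Convex ℝ B ∧ BoundsBall B F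

/-- Ambient isotopy carrying `L` onto `L'`. -/
def AmbientIsotopic (L L' : Set V) : Prop :=
  ∃ H : unitInterval → V ≃ₜ V, Continuous (fun p : unitInterval × V => H p.1 p.2) ∧
    H 0 = Homeomorph.refl V ∧ H 1 '' L = L'

end

/-- First component of `L_{i,j,n}` (coordinates are numbered from 0). -/
def K1 (j n : ℕ) : Set (Euc n) :=
  {x | ∑ l : Fin n with l.val + j + 1 < n, x l ^ 2 = 4 ∧
    ∀ l : Fin n, n ≤ l.val + j + 1 → x l = 0}

/-- Second component of `L_{i,j,n}`. -/
def K2 (i n : ℕ) : Set (Euc n) :=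
  {x | ∑ l : Fin n with i ≤ l.val, x l ^ 2 = 9 ∧ ∀ l : Fin n, l.val < i → x l = 0}

/-- Third component of `L_{i,j,n}`. -/
def K3 (i j n : ℕ) : Set (Euc n) :=
  {x | ∑ l : Fin n with l.val < i, x l ^ 2 +
      (∑ l : Fin n with n ≤ l.val + j + 1, x l ^ 2) / 16 = 1 ∧
    ∀ l : Fin n, i ≤ l.val → l.val + j + 1 < n → x l = 0}

/-- The link `L_{i,j,n}`. -/
def famL (i j n : ℕ) : Set (Euc n) := K1 j n ∪ K2 i n ∪ K3 i j n

end Pool.Agent.Lib.MP_1a97ab_gt
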