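import Pool.Agent.Lib.MP_1a97ab_gt.Defs

set_option autoImplicit false
set_option linter.unusedSectionVars false

open Set Metric
open scoped NNReal Topology

namespace Pool.Agent.Lib.MP_1a97ab_gt

variable {V : Type} [NormedAddCommGroup V] [NormedSpace ℝ V]

/-- The homeomorphism `h` is isotopic to the identity. -/
def IsoId (h : V ≃ₜ V) : Prop :=
  ∃ H : unitInterval → V ≃ₜ V, Continuous (fun p : unitInterval × V => H p.1 p.2) ∧
    H 0 = Homeomorph.refl V ∧ H 1 = h

theorem IsoId.refl : IsoId (Homeomorph.refl V) :=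
  ⟨fun _ => Homeomorph.refl V, continuous_snd, rfl, rfl⟩

theorem IsoId.trans {h k : V ≃ₜ V} (hh : IsoId h) (hk : IsoId k) : IsoId (h.trans k) := by
  obtain ⟨H, h1, h2, h3⟩ := hh
  obtain ⟨K, k1, k2, k3⟩ := hk
  refine ⟨fun τ => (H τ).trans (K τ), k1.comp (continuous_fst.prodMk h1), ?_, ?_⟩
  · simp only [h2, k2]; rfl
  · simp only [h3, k3]

theorem IsoId.conj {h : V ≃ₜ V} (hh : IsoId h) (s : V ≃ₜ V) : IsoId (s.symm.trans (h.trans s)) := by
  obtain ⟨H, h1, h2, h3⟩ := hh
  refine ⟨fun τ => s.symm.trans ((H τ).trans s),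
    s.continuous.comp (h1.comp (continuous_fst.prodMk (s.symm.continuous.comp continuous_snd))),
    ?_, ?_⟩
  · simp only [h2]; ext x; simp
  · simp only [h3]

/-- The family `K'` is reached from `K` by an ambient isotopy. -/
def Reach {ι : Type} (K K' : ι → Set V) : Prop := ∃ h : V ≃ₜ V, IsoId h ∧ ∀ i, h '' K i = K' i

theorem Reach.refl {ι : Type} (K : ι → Set V) : Reach K K :=
  ⟨Homeomorph.refl V, IsoId.refl, fun i => by simp⟩

theorem Reach.trans {ι : Type} {K K' K'' : ι → Set V} (h : Reach K K') (k : Reach K' K'') :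
    Reach K K'' := by
  obtain ⟨h, h1, h2⟩ := h
  obtain ⟨k, k1, k2⟩ := k
  refine ⟨h.trans k, h1.trans k1, fun i => ?_⟩
  rw [← k2, ← h2, image_image]
  rfl

theorem isoId_translate (v : V) : IsoId (Homeomorph.addRight v) := by
  refine ⟨fun τ => Homeomorph.addRight ((τ : ℝ) • v), ?_, ?_, ?_⟩
  · change Continuous fun p : unitInterval × V => p.2 + (p.1 : ℝ) • v
    fun_prop
  · ext x; simp
  · simp

variable [FiniteDimensional ℝ V]

theorem isoId_of_lipschitz (G : V → V) (hG : LipschitzWith (1 / 2) G) :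
    ∃ h : V ≃ₜ V, IsoId h ∧ ∀ x, h x = x + G x := by
  have := FiniteDimensional.complete ℝ V
  have hc : Subsingleton V ∨ (1 / 2 : ℝ≥0) <
      ‖((ContinuousLinearEquiv.refl ℝ V : V ≃L[ℝ] V).symm : V →L[ℝ] V)‖₊⁻¹ := by
    rcases subsingleton_or_nontrivial V with h | h
    · exact Or.inl h
    · right
      simp only [ContinuousLinearEquiv.refl_symm, ContinuousLinearEquiv.coe_refl,
        ContinuousLinearMap.nnnorm_id, inv_one]
      norm_num
  have happ : ∀ τ : unitInterval, ApproximatesLinearOn (fun x => x + (τ : ℝ) • G x)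
      ((ContinuousLinearEquiv.refl ℝ V : V ≃L[ℝ] V) : V →L[ℝ] V) univ (1 / 2 : ℝ≥0) := by
    intro τ x _ y _
    have : x + (τ : ℝ) • G x - (y + (τ : ℝ) • G y) - (x - y) = (τ : ℝ) • (G x - G y) := by
      simp only [smul_sub]; abel
    change ‖x + (τ : ℝ) • G x - (y + (τ : ℝ) • G y) - (x - y)‖ ≤ _
    rw [this, norm_smul, Real.norm_of_nonneg τ.2.1]
    have h1 := hG.dist_le_mul x y
    rw [dist_eq_norm, dist_eq_norm] at h1
    calc (τ : ℝ) * ‖G x - G y‖ ≤ 1 * ‖G x - G y‖ :=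
          mul_le_mul_of_nonneg_right τ.2.2 (norm_nonneg _)
      _ ≤ _ := by rw [one_mul]; exact h1
  let H : unitInterval → V ≃ₜ V := fun τ => (happ τ).toHomeomorph _ hc
  have hH : ∀ τ x, H τ x = x + (τ : ℝ) • G x := fun τ x => rfl
  refine ⟨H 1, ⟨H, ?_, ?_, rfl⟩, fun x => by simp [hH]⟩
  · simp only [hH]
    have := hG.continuous
    fun_prop
  · ext x; simp [hH]

/-- Small Lipschitz displacements of a set extend to ambient isotopies fixing a far away set. -/
theorem small_move (δ : ℝ) (hδ : 0 < δ) : ∃ η : ℝ, 0 < η ∧ ∀ (S Z : Set V) (g : V → V),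
    (∀ x ∈ S, ∀ z ∈ Z, δ ≤ dist x z) → (∀ x ∈ S, ∀ y ∈ S, ‖g x - g y‖ ≤ η * ‖x - y‖) →
    (∀ x ∈ S, ‖g x‖ ≤ η) →
    ∃ h : V ≃ₜ V, IsoId h ∧ (∀ x ∈ S, h x = x + g x) ∧ ∀ z ∈ Z, h z = z := by
  classical
  let c : ℝ≥0 := lipschitzExtensionConstant V
  have hc : 0 < c := lipschitzExtensionConstant_pos V
  let L : ℝ≥0 := 1 / (2 * c)
  have hL : 0 < L := by positivity
  refine ⟨min L (L * δ), lt_min hL (by positivity), fun S Z g h1 h2 h3 => ?_⟩
  let g' : V → V := fun x => if x ∈ S then g x else 0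
  have hZ : ∀ z ∈ Z, z ∉ S := by
    intro z hz hs
    have := h1 z hs z hz
    rw [dist_self] at this
    linarith
  have hmix : ∀ x ∈ S, ∀ z ∈ Z, ‖g x‖ ≤ L * dist x z := fun x hx z hz =>
    (h3 x hx).trans ((min_le_right _ _).trans (mul_le_mul_of_nonneg_left (h1 x hx z hz) L.2))
  have hlip : LipschitzOnWith L g' (S ∪ Z) := by
    apply LipschitzOnWith.of_dist_le_mul
    rintro x (hx | hx) y (hy | hy)
    · simp only [g', if_pos hx, if_pos hy, dist_eq_norm]
      exact (h2 x hx y hy).trans (mul_le_mul_of_nonneg_right (min_le_left _ _) (norm_nonneg _))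
    · simp only [g', if_pos hx, if_neg (hZ y hy), dist_zero_right]
      exact hmix x hx y hy
    · simp only [g', if_pos hy, if_neg (hZ x hx), dist_zero_left]
      rw [dist_comm]
      exact hmix y hy x hx
    · simp only [g', if_neg (hZ x hx), if_neg (hZ y hy), dist_self]
      positivity
  obtain ⟨G, hG1, hG2⟩ := hlip.extend_finite_dimension
  have e : lipschitzExtensionConstant V * L = 1 / 2 := by
    change c * (1 / (2 * c)) = 1 / 2
    field_simp
  rw [e] at hG1
  obtain ⟨h, hh1, hh2⟩ := isoId_of_lipschitz G hG1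
  refine ⟨h, hh1, fun x hx => ?_, fun z hz => ?_⟩
  · rw [hh2, ← hG2 (Or.inl hx)]
    simp only [g', if_pos hx]
  · rw [hh2, ← hG2 (Or.inr hz)]
    simp [g', hZ z hz]

end Pool.Agent.Lib.MP_1a97ab_gt
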