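import Pool.Agent.Shared.NullIn

set_option autoImplicit false
set_option linter.unusedSectionVars false

open Set Metric Pool.Agent.Shared.Brouwer
open scoped NNReal Topology

namespace Pool.Agent.Lib.MP_1a97ab_gt

section

variable {Q : Type} [NormedAddCommGroup Q] [NormedSpace ℝ Q] {N : Q → ℝ}

/-- The suspension of the gauge `N`. -/
def susp (N : Q → ℝ) (x : Q × ℝ) : ℝ := max (N x.1) |x.2|

theorem susp_pos (hpos : ∀ x, x ≠ 0 → 0 < N x) (x : Q × ℝ) (hx : x ≠ 0) : 0 < susp N x := by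
  by_cases h : x.1 = 0
  · exact lt_max_of_lt_right (abs_pos.mpr fun k => hx (Prod.ext h k))
  · exact lt_max_of_lt_left (hpos _ h)

theorem susp_hom (hhom : ∀ (t : ℝ) x, 0 < t → N (t • x) = t * N x) (t : ℝ) (x : Q × ℝ)
    (ht : 0 < t) : susp N (t • x) = t * susp N x := by
  simp only [susp, Prod.smul_fst, Prod.smul_snd, hhom t _ ht, smul_eq_mul, abs_mul, abs_of_pos ht]
  rw [mul_max_of_nonneg _ _ ht.le]

theorem hom_zero (hhom : ∀ (t : ℝ) x, 0 < t → N (t • x) = t * N x) : N 0 = 0 := by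
  have := hhom 2 0 two_pos
  rw [smul_zero] at this
  linarith

theorem exists_collapse (hc : Continuous N) (hpos : ∀ x, x ≠ 0 → 0 < N x)
    (hhom : ∀ (t : ℝ) x, 0 < t → N (t • x) = t * N x) (σ : ℝ) (hσ : σ = 1 ∨ σ = -1) :
    ∃ φ : ℝ × (Q × ℝ) → Q × ℝ, ContinuousOn φ (Icc 0 1 ×ˢ {x | susp N x = 1}) ∧
      MapsTo φ (Icc 0 1 ×ˢ {x | susp N x = 1}) {x | susp N x = 1} ∧
      (∀ x, susp N x = 1 → φ (0, x) = x) ∧
      ∀ x, susp N x = 1 → σ * x.2 ≤ 0 → φ (1, x) = (0, -σ) := by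
  have hN0 := hom_zero hhom
  let g : ℝ × (Q × ℝ) → Q × ℝ := fun p =>
    (((1 - p.1) + p.1 * max (σ * p.2.2) 0) • p.2.1, (1 - p.1) * p.2.2 + p.1 * (2 * p.2.2 - σ))
  have hg : Continuous g := by fun_prop
  have hcs : Continuous (susp N) := by unfold susp; fun_prop
  have hne : ∀ p ∈ Icc (0 : ℝ) 1 ×ˢ {x | susp N x = 1}, g p ≠ 0 := by
    rintro ⟨τ, ξ, z⟩ ⟨⟨t0, t1⟩, hx⟩ he
    have hx' : max (N ξ) |z| = 1 := hx
    have e1 : ((1 - τ) + τ * max (σ * z) 0) • ξ = 0 := congrArg Prod.fst he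
    have e2 : (1 - τ) * z + τ * (2 * z - σ) = 0 := congrArg Prod.snd he
    simp only at t0 t1
    rcases smul_eq_zero.mp e1 with e | e
    · have m0 := le_max_right (σ * z) 0
      have m1 := le_max_left (σ * z) 0
      have h1 : τ = 1 := by nlinarith [mul_nonneg t0 m0]
      subst h1
      rcases hσ with rfl | rfl <;> nlinarith
    · rw [e, hN0, max_eq_right (abs_nonneg z)] at hx'
      rcases (abs_eq zero_le_one).mp hx' with rfl | rfl <;> rcases hσ with rfl | rfl <;> nlinarith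
  refine ⟨fun p => (susp N (g p))⁻¹ • g p, ?_, ?_, ?_, ?_⟩
  · exact ContinuousOn.smul ((hcs.comp hg).continuousOn.inv₀
      (fun p hp => (susp_pos hpos _ (hne p hp)).ne')) hg.continuousOn
  · intro p hp
    have := susp_pos hpos _ (hne p hp)
    change susp N _ = 1
    rw [susp_hom hhom _ _ (inv_pos.mpr this), inv_mul_cancel₀ this.ne']
  · intro x hx
    have : g (0, x) = x := by simp [g]
    simp only [this, hx, inv_one, one_smul]
  · intro x hx hz
    have : g (1, x) = (0, 2 * x.2 - σ) := by simp [g, max_eq_right hz]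
    simp only [this, susp, hN0, max_eq_right (abs_nonneg (2 * x.2 - σ)), Prod.smul_mk, smul_zero,
      smul_eq_mul]
    congr 1
    rcases hσ with rfl | rfl
    · rw [abs_of_neg (by linarith), inv_mul_eq_div, div_eq_iff (by linarith)]; ring
    · rw [abs_of_pos (by linarith), inv_mul_eq_div, div_eq_iff (by linarith)]; ring

theorem seg_top (hhom : ∀ (t : ℝ) x, 0 < t → N (t • x) = t * N x) {x y : Q × ℝ}
    (h : (x.2 = 1 ∧ N x.1 ≤ 1 ∧ y = x) ∨ (x.2 ≤ N x.1 ∧ ¬ (y.1 = 0 ∧ 0 ≤ y.2))) (a b : ℝ)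
    (ha : 0 ≤ a) (hb : 0 ≤ b) (hab : a + b = 1) :
    a • y + b • ((max 0 (x.2 - N x.1) • x.1, 2 * max 0 (x.2 - N x.1) - 1) : Q × ℝ) ≠ 0 := by
  intro he
  have e1 := congrArg Prod.fst he
  have e2 := congrArg Prod.snd he
  simp only [Prod.fst_add, Prod.smul_fst, Prod.fst_zero, Prod.snd_add, Prod.smul_snd,
    Prod.snd_zero, smul_eq_mul] at e1 e2
  rcases h with ⟨h1, h2, rfl⟩ | ⟨h1, h2⟩
  · rw [h1, max_eq_right (by linarith)] at e1 e2
    rw [smul_smul, ← add_smul] at e1
    rcases smul_eq_zero.mp e1 with e | e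
    · nlinarith [mul_nonneg hb (sub_nonneg.mpr h2)]
    · rw [e, hom_zero hhom] at e2
      linarith
  · rw [max_eq_left (by linarith)] at e1 e2
    rw [zero_smul, smul_zero, add_zero] at e1
    rcases smul_eq_zero.mp e1 with e | e
    · rw [e] at e2 hab
      linarith
    · apply h2
      refine ⟨e, ?_⟩
      by_contra hc
      have hc' := not_le.mp hc
      have : a * y.2 ≤ 0 := mul_nonpos_of_nonneg_of_nonpos ha hc'.le
      have hb0 : b = 0 := by linarith
      have ha1 : a = 1 := by linarith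
      rw [hb0, ha1] at e2
      linarith

theorem not_nullIn_top [FiniteDimensional ℝ Q] (hc : Continuous N) (hpos : ∀ x, x ≠ 0 → 0 < N x)
    (hhom : ∀ (t : ℝ) x, 0 < t → N (t • x) = t * N x) {g : Q × ℝ → Q × ℝ}
    (hg : ContinuousOn g {x | susp N x = 1})
    (h : ∀ x, susp N x = 1 →
      (x.2 = 1 ∧ N x.1 ≤ 1 ∧ g x = x) ∨ (x.2 ≤ N x.1 ∧ ¬ ((g x).1 = 0 ∧ 0 ≤ (g x).2))) :
    ¬ NullIn g {x | susp N x = 1} {0}ᶜ := by
  intro hn
  have hN0 := hom_zero hhom
  have hk : Continuous fun x : Q × ℝ =>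
      ((max 0 (x.2 - N x.1) • x.1, 2 * max 0 (x.2 - N x.1) - 1) : Q × ℝ) := by fun_prop
  apply not_nullIn_level (susp N) (by unfold susp; fun_prop) (susp_pos hpos) (susp_hom hhom)
  refine NullIn.of_segment (hn.of_segment hk.continuousOn hg ?_) continuousOn_id hk.continuousOn ?_
  · intro x hx τ t0 t1
    rw [add_comm]
    exact seg_top hhom (h x hx) _ _ t0 (by linarith) (by ring)
  · intro x hx τ t0 t1
    refine seg_top hhom ?_ _ _ (by linarith) t0 (by ring)
    have hx' : max (N x.1) |x.2| = 1 := hx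
    have h1 : N x.1 ≤ 1 := hx' ▸ le_max_left _ _
    have h2 : |x.2| ≤ 1 := hx' ▸ le_max_right _ _
    by_cases hz : x.2 = 1
    · exact Or.inl ⟨hz, h1, rfl⟩
    · right
      rcases max_choice (N x.1) |x.2| with e | e
      · rw [hx'] at e
        refine ⟨by linarith [le_abs_self x.2], fun k => ?_⟩
        rw [k.1, hN0] at e
        exact one_ne_zero e
      · rw [hx'] at e
        rcases (abs_eq zero_le_one).mp e.symm with k | k
        · exact absurd k hz
        · refine ⟨?_, fun k' => by linarith [k'.2]⟩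
          by_cases h0 : x.1 = 0
          · rw [h0, hN0]; linarith
          · linarith [hpos _ h0]

end

section

variable {X Y : Type} [NormedAddCommGroup X] [NormedSpace ℝ X] [FiniteDimensional ℝ X]
  [NormedAddCommGroup Y] [NormedSpace ℝ Y] [FiniteDimensional ℝ Y]

theorem exists_away [Nontrivial X] (u : X) :
    ∃ a : X, ∀ τ : ℝ, τ ≠ 0 → (1 - τ) • u + τ • a ≠ 0 := by
  by_cases h : u = 0
  · obtain ⟨a, ha⟩ := exists_ne (0 : X)
    exact ⟨a, fun τ hτ => by simp [h, hτ, ha]⟩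
  · exact ⟨u, fun τ _ => by rwa [← add_smul, sub_add_cancel, one_smul]⟩

/-- The product of two punctured spaces with one cell removed. -/
def wedge (X Y : Type) [NormedAddCommGroup X] [NormedAddCommGroup Y] : Set ((X × ℝ) × (Y × ℝ)) :=
  {p | p.1 ≠ 0 ∧ p.2 ≠ 0 ∧ ¬ (p.1.1 = 0 ∧ p.2.1 = 0 ∧ 0 < p.1.2 ∧ 0 < p.2.2)}

/-- The collapse map from the product of two punctured spaces. -/
def collapse (p : (X × ℝ) × (Y × ℝ)) : (X × Y) × ℝ := ((p.1.1, p.2.1), min p.1.2 p.2.2)

theorem collapse_ne {p : (X × ℝ) × (Y × ℝ)} (h1 : p.1 ≠ 0) (h2 : p.2 ≠ 0) : collapse p ≠ 0 := by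
  intro he
  have e1 : p.1.1 = 0 := congrArg (fun q => q.1.1) he
  have e2 : p.2.1 = 0 := congrArg (fun q => q.1.2) he
  have e3 : min p.1.2 p.2.2 = 0 := congrArg (fun q => q.2) he
  rcases min_choice p.1.2 p.2.2 with e | e
  · exact h1 (Prod.ext e1 (e.symm.trans e3))
  · exact h2 (Prod.ext e2 (e.symm.trans e3))

theorem nullIn_collapse [Nontrivial X] [Nontrivial Y] {Q : Type} [NormedAddCommGroup Q]
    [NormedSpace ℝ Q] {N : Q → ℝ} (hc : Continuous N) (hpos : ∀ x, x ≠ 0 → 0 < N x)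
    (hhom : ∀ (t : ℝ) x, 0 < t → N (t • x) = t * N x) {f : Q × ℝ → (X × ℝ) × (Y × ℝ)}
    (hf : ContinuousOn f {x | susp N x = 1})
    (hm : ∀ x, susp N x = 1 → (f x).1 ≠ 0 ∧ (f x).2 ≠ 0) :
    NullIn (fun x => collapse (f x)) {x | susp N x = 1} {0}ᶜ := by
  obtain ⟨φ, p1, p2, p3, p4⟩ := exists_collapse hc hpos hhom 1 (Or.inl rfl)
  obtain ⟨χ, q1, q2, q3, q4⟩ := exists_collapse hc hpos hhom (-1) (Or.inr rfl)
  have hcc : Continuous (collapse (X := X) (Y := Y)) := by unfold collapse; fun_prop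
  let A : ℝ × (Q × ℝ) → (X × Y) × ℝ := fun p => collapse ((f (φ p)).1, (f (χ p)).2)
  have hA : ContinuousOn A (Icc 0 1 ×ˢ {x | susp N x = 1}) :=
    hcc.comp_continuousOn ((hf.comp p1 p2).fst.prodMk (hf.comp q1 q2).snd)
  have hAm : MapsTo A (Icc 0 1 ×ˢ {x | susp N x = 1}) {0}ᶜ := fun p hp =>
    collapse_ne (hm _ (p2 hp)).1 (hm _ (q2 hp)).2
  have h1 : MapsTo (fun x : Q × ℝ => ((1 : ℝ), x)) {x | susp N x = 1}
      (Icc 0 1 ×ˢ {x | susp N x = 1}) := fun x hx => ⟨⟨zero_le_one, le_rfl⟩, hx⟩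
  refine NullIn.of_homotopy (g := fun x => A (1, x)) ?_ A hA hAm
    (fun x hx => by simp only [A, p3 x hx, q3 x hx]) (fun _ _ => rfl)
  obtain ⟨a, ha⟩ := exists_away (f (0, -1)).1.1
  obtain ⟨b, hb⟩ := exists_away (f (0, - -1)).2.1
  refine nullIn_of_star (y := ((a, b), 0)) ?_ (hA.comp (by fun_prop) h1) ?_
  · intro he
    have : a = 0 := congrArg (fun q => q.1.1) he
    exact ha 1 one_ne_zero (by simp [this])
  · intro x hx τ t0 t1 he
    by_cases h0 : τ = 0
    · rw [h0, sub_zero, one_smul, zero_smul, add_zero] at he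
      exact hAm (h1 hx) he
    · rcases le_total x.2 0 with hz | hz
      · apply ha τ h0
        have := congrArg (fun q => q.1.1) he
        simp only [A, p4 x hx (by linarith)] at this
        exact this
      · apply hb τ h0
        have := congrArg (fun q => q.1.2) he
        simp only [A, q4 x hx (by linarith)] at this
        exact this

/-- The Whitehead product of the two sphere factors is essential. -/
theorem whitehead [Nontrivial X] [Nontrivial Y] {N : X × Y → ℝ} (hc : Continuous N)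
    (hpos : ∀ x, x ≠ 0 → 0 < N x) (hhom : ∀ (t : ℝ) x, 0 < t → N (t • x) = t * N x) :
    ¬ NullIn (fun ξ : X × Y => ((ξ.1, (1 : ℝ)), (ξ.2, (1 : ℝ)))) {ξ | N ξ = 1} (wedge X Y) := by
  classical
  rintro ⟨H, y, h1, h2, h3, h4, h5⟩
  let f : (X × Y) × ℝ → (X × ℝ) × (Y × ℝ) := fun x =>
    if N x.1 = 1 then H ((1 - x.2) / 2, x.1) else
      if 0 ≤ x.2 then ((x.1.1, 1), (x.1.2, 1)) else y
  have hcs : Continuous (susp N) := by unfold susp; fun_prop
  have hS : IsClosed {x | susp N x = 1} := isClosed_eq hcs continuous_const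
  have hb : ∀ x, susp N x = 1 → N x.1 ≤ 1 ∧ |x.2| ≤ 1 := fun x hx =>
    ⟨hx ▸ le_max_left _ _, hx ▸ le_max_right _ _⟩
  have hcase : ∀ x, susp N x = 1 → N x.1 = 1 ∨ x.2 = 1 ∨ x.2 = -1 := by
    intro x hx
    rcases max_choice (N x.1) |x.2| with e | e
    · exact Or.inl (e.symm.trans hx)
    · exact Or.inr ((abs_eq zero_le_one).mp (e.symm.trans hx))
  have hside : MapsTo (fun x : (X × Y) × ℝ => ((1 - x.2) / 2, x.1))
      ({x | susp N x = 1} ∩ {x | N x.1 = 1}) (Icc 0 1 ×ˢ {ξ | N ξ = 1}) := by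
    intro x hx
    have := abs_le.mp (hb x hx.1).2
    exact ⟨⟨by linarith [this.2], by linarith [this.1]⟩, hx.2⟩
  have htop : ∀ x : (X × Y) × ℝ, x.2 = 1 → f x = ((x.1.1, 1), (x.1.2, 1)) := by
    intro x hx
    simp only [f, hx, sub_self, zero_div, zero_le_one, if_true]
    split_ifs with k
    · exact h3 _ k
    · rfl
  have hbot : ∀ x : (X × Y) × ℝ, x.2 = -1 → f x = y := by
    intro x hx
    have : ¬ (0 : ℝ) ≤ -1 := by norm_num
    simp only [f, hx, if_neg this]
    split_ifs with k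
    · norm_num [h4 _ k]
    · rfl
  have hf : ContinuousOn f {x | susp N x = 1} := by
    have e : {x | susp N x = 1} = ({x | susp N x = 1} ∩ {x | N x.1 = 1}) ∪
        (({x | susp N x = 1} ∩ {x | x.2 = 1}) ∪ ({x | susp N x = 1} ∩ {x | x.2 = -1})) := by
      rw [← inter_union_distrib_left, ← inter_union_distrib_left]
      exact (inter_eq_left.mpr fun x hx => hcase x hx).symm
    have c1 : IsClosed ({x | susp N x = 1} ∩ {x | x.2 = 1}) :=
      hS.inter (isClosed_eq continuous_snd continuous_const)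
    have c2 : IsClosed ({x | susp N x = 1} ∩ {x | x.2 = -1}) :=
      hS.inter (isClosed_eq continuous_snd continuous_const)
    rw [e]
    refine ContinuousOn.union_of_isClosed ?_ (ContinuousOn.union_of_isClosed ?_ ?_ c1 c2)
      (hS.inter (isClosed_eq (hc.comp continuous_fst) continuous_const)) (c1.union c2)
    · exact (h1.comp (by fun_prop) hside).congr (fun x hx => if_pos hx.2)
    · exact ContinuousOn.congr (f := fun x : (X × Y) × ℝ => ((x.1.1, (1 : ℝ)), (x.1.2, (1 : ℝ))))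
        (by fun_prop) (fun x hx => htop x hx.2)
    · exact (continuousOn_const (c := y)).congr (fun x hx => hbot x hx.2)
  have hprop : ∀ x, susp N x = 1 → x.2 = 1 ∨ (x.2 ≤ N x.1 ∧ f x ∈ wedge X Y) := by
    intro x hx
    rcases hcase x hx with e | e | e
    · right
      refine ⟨by linarith [(abs_le.mp (hb x hx).2).2], ?_⟩
      simp only [f, if_pos e]
      exact h2 (hside ⟨hx, e⟩)
    · exact Or.inl e
    · right
      refine ⟨?_, hbot x e ▸ h5⟩
      by_cases h0 : x.1 = 0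
      · rw [h0, hom_zero hhom]; linarith
      · linarith [hpos _ h0]
  have hcc : Continuous (collapse (X := X) (Y := Y)) := by unfold collapse; fun_prop
  refine not_nullIn_top hc hpos hhom (hcc.comp_continuousOn hf) ?_
    (nullIn_collapse hc hpos hhom hf ?_)
  · intro x hx
    rcases hprop x hx with e | ⟨e1, e2⟩
    · left
      refine ⟨e, (hb x hx).1, ?_⟩
      simp only [Function.comp_apply, htop x e, collapse, min_self]
      rw [← e]
    · right
      refine ⟨e1, fun k => e2.2.2 ?_⟩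
      have k1 : (f x).1.1 = 0 := congrArg Prod.fst k.1
      have k2 : (f x).2.1 = 0 := congrArg Prod.snd k.1
      have k3 : 0 ≤ min (f x).1.2 (f x).2.2 := k.2
      refine ⟨k1, k2, lt_of_le_of_ne (k3.trans (min_le_left _ _)) fun e => ?_,
        lt_of_le_of_ne (k3.trans (min_le_right _ _)) fun e => ?_⟩
      · exact e2.1 (Prod.ext k1 e.symm)
      · exact e2.2.1 (Prod.ext k2 e.symm)
  · intro x hx
    rcases hprop x hx with e | ⟨-, e2⟩
    · simp [htop x e]
    · exact ⟨e2.1, e2.2.1⟩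

end

end Pool.Agent.Lib.MP_1a97ab_gt
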