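import Pool.Agent.Lib.MP_1a97ab_gt.Move
import Pool.Agent.Lib.MP_1a97ab_gt.White

set_option autoImplicit false
set_option linter.unusedSectionVars false

open Set Metric Pool.Agent.Shared.Brouwer
open scoped NNReal Topology RealInnerProductSpace

namespace Pool.Agent.Lib.MP_1a97ab_gt

variable {V : Type} [NormedAddCommGroup V] [InnerProductSpace ℝ V] [FiniteDimensional ℝ V]

/-- The quotient map by `W`, realised as the projection onto the orthogonal complement. -/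
noncomputable def qt (W : Submodule ℝ V) : V →L[ℝ] Wᗮ := Wᗮ.orthogonalProjectionOnto

theorem qt_eq_zero {W : Submodule ℝ V} {x : V} : qt W x = 0 ↔ x ∈ W := by
  rw [qt, Submodule.orthogonalProjectionOnto_eq_zero_iff, Submodule.orthogonal_orthogonal]

theorem qt_of_sub {W : Submodule ℝ V} {x : V} {y : Wᗮ} (h : x - y ∈ W) : qt W x = y := by
  have := qt_eq_zero.mpr h
  rw [map_sub, sub_eq_zero] at this
  rw [this, qt, Submodule.orthogonalProjectionOnto_mem_subspace_eq_self]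

theorem nontrivial_orth {W : Submodule ℝ V} (h : W ≠ ⊤) : Nontrivial Wᗮ :=
  Submodule.nontrivial_iff_ne_bot.mpr fun k => h (W.orthogonal_eq_bot_iff.mp k)

variable {W W' : Submodule ℝ V} {A B A' B' C : Set V}

theorem Body.ne_top (h : Body W A B) {K : Set V} (hK : K.Nonempty) (hKC : K ⊆ C)
    (hp : C ∩ A ⊆ rint A B) (hn : NullIn (fun x => x) (rbd A B) Kᶜ) : W ≠ ⊤ := by
  rintro rfl
  obtain ⟨q, hq⟩ := hK
  obtain ⟨o, ho⟩ := h.ne
  have hA : ∀ x, x ∈ A := fun x => (h.flat o ho.1 x).mpr trivial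
  refine h.not_nullIn_flat (hp ⟨hKC hq, hA q⟩) (hn.mono fun x hx => ⟨hA x, ?_⟩)
  rintro rfl
  exact hx hq

theorem Body.exists_exit (h : Body W A B) (hC : Convex ℝ C) {p y : V} (hp : p ∈ B ∩ C)
    (hy : y ∈ C ∩ A) (hy' : y ∉ rint A B) : ∃ z ∈ C, z ∈ rbd A B := by
  by_cases hr : p ∈ rint A B
  · obtain ⟨N, hN⟩ := h.exists_gauge hr
    have hw : y - p ∈ W := (h.flat p hr.1 y).mp hy.2
    have h1 : 1 ≤ N (y - p) := not_lt.mp fun k => hy' (by simpa using (hN.lt _ hw).mpr k)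
    have h0 : y - p ≠ 0 := fun e => by rw [e, hN.zero] at h1; linarith
    exact ⟨_, hC.add_smul_sub_mem hp.2 hy.1 ⟨by positivity, inv_le_one_of_one_le₀ h1⟩,
      hN.exit hw h0⟩
  · exact ⟨p, hp.2, hp.1, hr⟩

theorem Gauge.lt_of_pierce {o : V} {N N' : V → ℝ} (hN : Gauge W A B o N) (hN' : Gauge W' A' B' o N')
    (hA' : Flat W' A') (ho : o ∈ A') (hp : B ∩ A' ⊆ rint A' B') {w : V} (hw : w ∈ W) (hw' : w ∈ W')
    (h0 : w ≠ 0) : N' w < N w := by
  have p := hN.pos hw h0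
  have := hp ⟨(hN.exit hw h0).1, (hA'.add_mem ho).mpr (W'.smul_mem _ hw')⟩
  rwa [hN'.lt _ (W'.smul_mem _ hw'), hN'.hom _ (inv_pos.mpr p).le, inv_mul_lt_iff₀ p, mul_one] at this

/-- Two disjoint transverse convex knots whose balls meet are nested or linked. -/
theorem Body.pair (h : Body W A B) (h' : Body W' A' B') (hd : Disjoint (rbd A B) (rbd A' B'))
    (hp : (B ∩ B').Nonempty) (hg : ∀ y, ∃ x ∈ W, x - y ∈ W')
    (hn : NullIn (fun x => x) (rbd A B) (rbd A' B')ᶜ) :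
    B' ∩ A ⊆ rint A B ∨ B ∩ A' ⊆ rint A' B' := by
  by_contra hc
  rw [not_or, not_subset, not_subset] at hc
  obtain ⟨⟨y0, y1, y2⟩, x0, x1, x2⟩ := hc
  obtain ⟨p, hp⟩ := hp
  obtain ⟨y, hyB, hy⟩ := h.exists_exit h'.conv hp y1 y2
  obtain ⟨x, hxB, hx⟩ := h'.exists_exit h.conv ⟨hp.2, hp.1⟩ x1 x2
  have hyr : y ∈ rint A' B' := by
    by_contra k
    exact disjoint_left.mp hd hy ⟨hyB, k⟩
  have hxr : x ∈ rint A B := by
    by_contra k
    exact disjoint_left.mp hd ⟨hxB, k⟩ hx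
  let u : V := (1 / 2 : ℝ) • (y - x)
  let o : V := x + u
  have ey : o + u = y := by simp only [o, u]; module
  have ex : o + -u = x := by simp [o]
  have ho : o ∈ rint A B := by
    have := h.segment_mem hxr hy.1 (τ := 1 / 2) (by norm_num) (by norm_num)
    convert this using 1
    simp only [o, u]; module
  have ho' : o ∈ rint A' B' := by
    have := h'.segment_mem hyr hx.1 (τ := 1 / 2) (by norm_num) (by norm_num)
    convert this using 1
    simp only [o, u]; module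
  obtain ⟨N, hN⟩ := h.exists_gauge ho
  obtain ⟨N', hN'⟩ := h'.exists_gauge ho'
  have hu : u ∈ W := (h.flat.add_mem ho.1).mp (ey ▸ h.sub hy.1)
  have hu' : u ∈ W' := (h'.flat.add_mem ho'.1).mp (ey ▸ hyr.1)
  have n1 : N u = 1 := (hN.eq hu).mp (ey ▸ hy)
  have n2 : N' u < 1 := (hN'.lt _ hu').mp (ey ▸ hyr)
  have n3 : N' (-u) = 1 := (hN'.eq (W'.neg_mem hu')).mp (ex ▸ hx)
  have n4 : N (-u) < 1 := (hN.lt _ (W.neg_mem hu)).mp (ex ▸ hxr)
  have hu0 : u ≠ 0 := fun e => by rw [e, hN.zero] at n1; exact zero_ne_one n1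
  have ivt : ∀ a b : V, a ∈ W → a ∈ W' → b ∈ W → b ∈ W' →
      (∀ s : ℝ, (1 - s) • a + s • b ≠ 0) → N' a ≤ N a → N b ≤ N' b → False := by
    intro a b a1 a2 b1 b2 hne ha hb
    have c1 := hN.continuous
    have c2 := hN'.continuous
    have hcont : Continuous fun s : ℝ => N ((1 - s) • a + s • b) - N' ((1 - s) • a + s • b) := by
      fun_prop
    obtain ⟨s, -, hs⟩ := intermediate_value_Icc' zero_le_one hcont.continuousOn
      (show (0 : ℝ) ∈ _ from ⟨by simpa using hb, by simpa using ha⟩)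
    have k1 := hN.exit (W.add_mem (W.smul_mem (1 - s) a1) (W.smul_mem s b1)) (hne s)
    have k2 := hN'.exit (W'.add_mem (W'.smul_mem (1 - s) a2) (W'.smul_mem s b2)) (hne s)
    rw [sub_eq_zero.mp hs] at k1
    exact disjoint_left.mp hd k1 k2
  have hspan : ∀ v ∈ W, v ∈ W' → ∃ t : ℝ, v = t • u := by
    intro v v1 v2
    by_contra hc
    rw [not_exists] at hc
    have key : ∀ a b : ℝ, a • u + b • v = 0 → a = 0 ∧ b = 0 := by
      intro a b he
      have hb : b = 0 := by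
        by_contra hb
        apply hc (-(b⁻¹ * a))
        have : v = b⁻¹ • (b • v) := by rw [smul_smul, inv_mul_cancel₀ hb, one_smul]
        rw [this, eq_neg_of_add_eq_zero_right he]
        module
      rw [hb, zero_smul, add_zero] at he
      exact ⟨(smul_eq_zero.mp he).resolve_right hu0, hb⟩
    rcases le_total (N v) (N' v) with k | k
    · refine ivt u v hu hu' v1 v2 (fun s he => ?_) (by linarith) k
      obtain ⟨k1, k2⟩ := key _ _ he
      linarith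
    · refine ivt v (-u) v1 v2 (W.neg_mem hu) (W'.neg_mem hu') (fun s he => ?_) k (by linarith)
      obtain ⟨k1, k2⟩ := key (-s) (1 - s) (by rw [← he]; module)
      linarith
  have huu : 0 < ⟪u, u⟫ := real_inner_self_pos.mpr hu0
  let ℓ : W →ₗ[ℝ] W'ᗮ × ℝ :=
    (((qt W').prod (innerSL ℝ u) : V →L[ℝ] W'ᗮ × ℝ) : V →ₗ[ℝ] W'ᗮ × ℝ).comp W.subtype
  have hℓ : ∀ w : W, ℓ w = (qt W' w, ⟪u, (w : V)⟫) := fun w => rfl
  have hbij : Function.Bijective ℓ := by
    constructor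
    · rw [injective_iff_map_eq_zero]
      intro w hw
      rw [hℓ, Prod.mk_eq_zero, qt_eq_zero] at hw
      obtain ⟨t, ht⟩ := hspan w w.2 hw.1
      have := hw.2
      rw [ht, real_inner_smul_right] at this
      have t0 : t = 0 := (mul_eq_zero.mp this).resolve_right huu.ne'
      ext
      simp [ht, t0]
    · rintro ⟨ξ, r⟩
      obtain ⟨w, hw, hw'⟩ := hg ξ
      refine ⟨⟨w + ((r - ⟪u, w⟫) / ⟪u, u⟫) • u, W.add_mem hw (W.smul_mem _ hu)⟩, ?_⟩
      rw [hℓ]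
      simp only [map_add, map_smul, qt_of_sub hw', qt_eq_zero.mpr hu', smul_zero, add_zero,
        inner_add_right, real_inner_smul_right]
      congr 1
      field_simp
      ring
  refine h.not_nullIn ho (LinearEquiv.ofBijective ℓ hbij).toContinuousLinearEquiv
    (fun x => (qt W' (x - o), ⟪u, x - o⟫)) (fun w => by simp [hℓ]) ?_
  have c2 := hN'.continuous
  have m1 : NullIn (fun x => (qt W' (x - o), 1 - N' (x - o))) (rbd A B) {0}ᶜ := by
    refine hn.comp_left (g := fun x => (qt W' (x - o), 1 - N' (x - o))) (by fun_prop) ?_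
    intro z hz he
    rw [mem_singleton_iff, Prod.mk_eq_zero, qt_eq_zero, sub_eq_zero] at he
    apply hz
    simpa using (hN'.eq he.1).mpr he.2.symm
  refine m1.of_segment (by fun_prop) (by fun_prop) ?_
  intro z hz τ t0 t1 he
  rw [mem_singleton_iff, Prod.smul_mk, Prod.smul_mk, Prod.mk_add_mk, Prod.mk_eq_zero, ← add_smul,
    sub_add_cancel, one_smul, qt_eq_zero] at he
  have hw : z - o ∈ W := (h.flat o ho.1 z).mp (h.sub hz.1)
  have h1 : N (z - o) = 1 := (hN.eq hw).mp (by simpa using hz)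
  obtain ⟨t, ht⟩ := hspan _ hw he.1
  have he2 := he.2
  rw [ht, real_inner_smul_right, smul_eq_mul, smul_eq_mul] at he2
  rw [ht] at h1
  rcases le_total 0 t with k | k
  · rw [hN.hom t k, n1, mul_one] at h1
    rw [h1, one_smul, one_mul] at he2
    rcases t1.lt_or_eq with k' | k'
    · nlinarith [mul_nonneg t0 (sub_nonneg.mpr n2.le), mul_pos (sub_pos.mpr k') huu]
    · rw [k'] at he2; linarith
  · have e : t • u = (-t) • (-u) := by simp
    rw [e, hN.hom _ (by linarith)] at h1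
    rw [e, hN'.hom _ (by linarith), n3] at he2
    have p := hN.nonneg (W.neg_mem hu)
    have k1 : 1 < -t := by nlinarith
    rcases t1.lt_or_eq with k' | k'
    · nlinarith [mul_nonneg t0 (sub_nonneg.mpr k1.le), mul_pos (sub_pos.mpr k') huu]
    · rw [k'] at he2; linarith

theorem flat_self (W : Submodule ℝ V) : Flat W W := fun a ha x =>
  ⟨fun h => W.sub_mem h ha, fun h => by simpa using W.add_mem h ha⟩

/-- Three convex bodies through the origin, cyclically piercing one another. -/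
structure Cyc (W1 W2 W3 : Submodule ℝ V) (B1 B2 B3 : Set V) : Prop where
  b1 : Body W1 W1 B1
  b2 : Body W2 W2 B2
  b3 : Body W3 W3 B3
  z1 : 0 ∈ B1
  z2 : 0 ∈ B2
  z3 : 0 ∈ B3
  p12 : B1 ∩ W2 ⊆ rint W2 B2
  p23 : B2 ∩ W3 ⊆ rint W3 B3
  p31 : B3 ∩ W1 ⊆ rint W1 B1

/-- Chinese remainder property of three subspaces. -/
def Crt (W1 W2 W3 : Submodule ℝ V) : Prop :=
  ∀ y1 y2 y3 : V, ∃ x, x - y1 ∈ W1 ∧ x - y2 ∈ W2 ∧ x - y3 ∈ W3

variable {W1 W2 W3 : Submodule ℝ V} {B1 B2 B3 : Set V}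

theorem Cyc.rot (h : Cyc W1 W2 W3 B1 B2 B3) : Cyc W2 W3 W1 B2 B3 B1 :=
  ⟨h.b2, h.b3, h.b1, h.z2, h.z3, h.z1, h.p23, h.p31, h.p12⟩

theorem Crt.rot (h : Crt W1 W2 W3) : Crt W2 W3 W1 := fun y2 y3 y1 => by
  obtain ⟨x, h1, h2, h3⟩ := h y1 y2 y3
  exact ⟨x, h2, h3, h1⟩

theorem Cyc.r1 (h : Cyc W1 W2 W3 B1 B2 B3) : 0 ∈ rint W1 B1 := h.p31 ⟨h.z3, W1.zero_mem⟩

theorem Cyc.eq_zero (h : Cyc W1 W2 W3 B1 B2 B3) {x : V} (h1 : x ∈ W1) (h2 : x ∈ W2)
    (h3 : x ∈ W3) : x = 0 := by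
  by_contra h0
  obtain ⟨N1, g1⟩ := h.b1.exists_gauge h.r1
  obtain ⟨N2, g2⟩ := h.b2.exists_gauge h.rot.r1
  obtain ⟨N3, g3⟩ := h.b3.exists_gauge h.rot.rot.r1
  have := g1.lt_of_pierce g2 h.b2.flat W2.zero_mem h.p12 h1 h2 h0
  have := g2.lt_of_pierce g3 h.b3.flat W3.zero_mem h.p23 h2 h3 h0
  have := g3.lt_of_pierce g1 h.b1.flat W1.zero_mem h.p31 h3 h1 h0
  linarith

/-- A cyclic triple is linked. -/
theorem Cyc.not_nullIn (h : Cyc W1 W2 W3 B1 B2 B3) (hc : Crt W1 W2 W3) (n2 : W2 ≠ ⊤)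
    (n3 : W3 ≠ ⊤) : ¬ NullIn (fun x => x) (rbd W1 B1) (rbd W2 B2 ∪ rbd W3 B3)ᶜ := by
  intro hn
  have := nontrivial_orth n2
  have := nontrivial_orth n3
  obtain ⟨N1, g1⟩ := h.b1.exists_gauge h.r1
  obtain ⟨N2, g2⟩ := h.b2.exists_gauge h.rot.r1
  obtain ⟨N3, g3⟩ := h.b3.exists_gauge h.rot.rot.r1
  let ℓ : W1 →ₗ[ℝ] W2ᗮ × W3ᗮ :=
    (((qt W2).prod (qt W3) : V →L[ℝ] W2ᗮ × W3ᗮ) : V →ₗ[ℝ] W2ᗮ × W3ᗮ).comp W1.subtype
  have hℓ : ∀ w : W1, ℓ w = (qt W2 w, qt W3 w) := fun w => rfl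
  have hbij : Function.Bijective ℓ := by
    constructor
    · rw [injective_iff_map_eq_zero]
      intro w hw
      rw [hℓ, Prod.mk_eq_zero, qt_eq_zero, qt_eq_zero] at hw
      exact Subtype.ext (h.eq_zero w.2 hw.1 hw.2)
    · rintro ⟨ξ, ζ⟩
      obtain ⟨w, w1, w2, w3⟩ := hc 0 ξ ζ
      refine ⟨⟨w, by simpa using w1⟩, ?_⟩
      rw [hℓ]
      simp only [qt_of_sub w2, qt_of_sub w3]
  let e := (LinearEquiv.ofBijective ℓ hbij).toContinuousLinearEquiv
  have he : ∀ ξ, (qt W2 (e.symm ξ), qt W3 (e.symm ξ)) = ξ := fun ξ => e.apply_symm_apply ξ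
  have c1 := g1.continuous
  have c2 := g2.continuous
  have c3 := g3.continuous
  have he0 : ∀ ξ, ξ ≠ 0 → ((e.symm ξ : W1) : V) ≠ 0 := fun ξ h0 k => h0 (by simpa using k)
  refine whitehead (N := fun ξ => N1 (e.symm ξ)) (by fun_prop)
    (fun ξ h0 => g1.pos (e.symm ξ).2 (he0 ξ h0)) (fun t ξ ht => by simp [g1.hom t ht.le]) ?_
  let G : V → (W2ᗮ × ℝ) × (W3ᗮ × ℝ) := fun v => ((qt W2 v, 1 - N2 v), (qt W3 v, N3 v - 1))
  have hG : Continuous G := by fun_prop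
  have m1 : NullIn G (rbd W1 B1) (wedge W2ᗮ W3ᗮ) := by
    refine hn.comp_left hG.continuousOn ?_
    intro v hv
    refine ⟨fun k => ?_, fun k => ?_, fun k => ?_⟩
    · rw [Prod.mk_eq_zero, qt_eq_zero, sub_eq_zero] at k
      exact hv (Or.inl (by simpa using (g2.eq k.1).mpr k.2.symm))
    · rw [Prod.mk_eq_zero, qt_eq_zero, sub_eq_zero] at k
      exact hv (Or.inr (by simpa using (g3.eq k.1).mpr k.2))
    · obtain ⟨k1, k2, k3, k4⟩ := k
      simp only [qt_eq_zero, sub_pos] at k1 k2 k3 k4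
      have h0 : v ≠ 0 := fun e => by rw [e, g3.zero] at k4; linarith
      have := g2.lt_of_pierce g3 h.b3.flat W3.zero_mem h.p23 k1 k2 h0
      linarith
  have m2 := m1.comp_right (g := fun ξ => ((e.symm ξ : W1) : V)) (r := {ξ | N1 (e.symm ξ) = 1})
    (by fun_prop) (fun ξ hξ => by simpa using (g1.eq (e.symm ξ).2).mpr hξ)
  refine m2.of_segment (by fun_prop) (by fun_prop) ?_
  intro ξ hξ τ t0 t1
  have hξ' : N1 (e.symm ξ) = 1 := hξ
  have h0 : ξ ≠ 0 := fun k => by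
    rw [k, map_zero, Submodule.coe_zero, g1.zero] at hξ'
    exact zero_ne_one hξ'
  have e1 : qt W2 (e.symm ξ) = ξ.1 := congrArg Prod.fst (he ξ)
  have e2 : qt W3 (e.symm ξ) = ξ.2 := congrArg Prod.snd (he ξ)
  have pos : ∀ s : ℝ, 0 < s → (1 - τ) + τ * s ≠ 0 := by
    intro s hs
    rcases t1.lt_or_eq with k | k
    · nlinarith [mul_nonneg t0 hs.le]
    · rw [k]; linarith
  simp only [G, e1, e2, Prod.smul_mk, Prod.mk_add_mk, ← add_smul, sub_add_cancel, one_smul,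
    smul_eq_mul, mul_one]
  refine ⟨fun k => ?_, fun k => ?_, fun k => h0 (Prod.ext k.1 k.2.1)⟩
  · rw [Prod.mk_eq_zero, ← e1, qt_eq_zero] at k
    have := g1.lt_of_pierce g2 h.b2.flat W2.zero_mem h.p12 (e.symm ξ).2 k.1 (he0 ξ h0)
    exact pos _ (by linarith) k.2
  · rw [Prod.mk_eq_zero, ← e2, qt_eq_zero] at k
    have := g3.lt_of_pierce g1 h.b1.flat W1.zero_mem h.p31 k.1 (e.symm ξ).2 (he0 ξ h0)
    exact pos _ (by linarith) k.2

end Pool.Agent.Lib.MP_1a97ab_gt
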