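import Pool.Agent.Lib.MP_1a97ab_gt.Standard

set_option autoImplicit false
set_option linter.unusedSectionVars false

open Set Metric Pool.Agent.Shared.Brouwer
open scoped NNReal Topology

namespace Pool.Agent.Lib.MP_1a97ab_gt

section

variable {V : Type} [NormedAddCommGroup V] [InnerProductSpace ℝ V] [FiniteDimensional ℝ V]
variable {m : ℕ}

theorem IsUnlinkOn.image {F : Fin m → Set V} {s : Set (Fin m)} (h : IsUnlinkOn F s) (f : V ≃ₜ V) :
    IsUnlinkOn (fun i => f '' F i) s := by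
  intro i hi
  obtain ⟨B, h1, h2⟩ := h i hi
  exact ⟨f '' B, h1.image f.continuous.continuousOn f.injective.injOn,
    fun j hj hji => (disjoint_image_iff f.injective).mpr (h2 j hj hji)⟩

theorem IsUnlinkOn.of_image {F : Fin m → Set V} {s : Set (Fin m)} (f : V ≃ₜ V)
    (h : IsUnlinkOn (fun i => f '' F i) s) : IsUnlinkOn F s := by
  simpa [image_image] using h.image f.symm

theorem IsBrunnian.image {F : Fin m → Set V} (h : IsBrunnian F) (f : V ≃ₜ V) :
    IsBrunnian (fun i => f '' F i) :=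
  ⟨h.1, fun k => h.2.1 (k.of_image f), fun s hs => (h.2.2 s hs).image f⟩

theorem IsUnlinkOn.nullIn {F : Fin m → Set V} {s : Set (Fin m)} (h : IsUnlinkOn F s) {i : Fin m}
    (hi : i ∈ s) {Z : Set V} (hZ : ∀ x ∈ Z, ∃ j ∈ s, j ≠ i ∧ x ∈ F j) :
    NullIn (fun x => x) (F i) Zᶜ := by
  obtain ⟨B, h1, h2⟩ := h i hi
  refine h1.nullIn.mono fun x hx hz => ?_
  obtain ⟨j, j1, j2, j3⟩ := hZ x hz
  exact disjoint_left.mp (h2 j j1 j2) hx j3

theorem IsBrunnian.pair {F : Fin m → Set V} (h : IsBrunnian F) {i k : Fin m} (hik : k ≠ i) :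
    NullIn (fun x => x) (F i) (F k)ᶜ := by
  have : ({i, k} : Set (Fin m)) ≠ univ := by
    intro e
    have h1 : ({i, k} : Set (Fin m)).ncard ≤ 2 := by
      simpa using Set.ncard_insert_le i ({k} : Set (Fin m))
    rw [e, Set.ncard_univ, Nat.card_eq_fintype_card, Fintype.card_fin] at h1
    have := h.1
    omega
  exact (h.2.2 _ this).nullIn (by simp) fun x hx => ⟨k, by simp, hik, hx⟩

/-- A convex Brunnian link together with its convex balls. -/
structure Data (W : Fin m → Submodule ℝ V) (A B : Fin m → Set V) : Prop where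
  body : ∀ i, Body (W i) (A i) (B i)
  bb : ∀ i, BoundsBall (B i) (rbd (A i) (B i))
  disj : ∀ i j, i ≠ j → Disjoint (rbd (A i) (B i)) (rbd (A j) (B j))
  brun : IsBrunnian fun i => rbd (A i) (B i)

/-- General position of a family of flats. -/
def Gen (W : Fin m → Submodule ℝ V) (A : Fin m → Set V) : Prop :=
  ∀ s : Set (Fin m), (∃ p, ∀ i ∈ s, p ∈ A i) → ∀ y : Fin m → V, ∃ x, ∀ i ∈ s, x - y i ∈ W i

variable {W : Fin m → Submodule ℝ V} {A B : Fin m → Set V}

theorem Data.translate (h : Data W A B) (v : Fin m → V) (f : V ≃ₜ V)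
    (hf : ∀ i, f '' rbd (A i) (B i) = Homeomorph.addRight (v i) '' rbd (A i) (B i)) :
    Data W (fun i => Homeomorph.addRight (v i) '' A i)
      (fun i => Homeomorph.addRight (v i) '' B i) := by
  refine ⟨fun i => (h.body i).image _ id (by simp) (by simp) (by simp), fun i => ?_,
    fun i j hij => ?_, ?_⟩
  · rw [rbd_image]
    exact (h.bb i).image (Homeomorph.continuous _).continuousOn (Homeomorph.injective _).injOn
  · rw [rbd_image, rbd_image, ← hf, ← hf]
    exact (disjoint_image_iff f.injective).mpr (h.disj i j hij)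
  · simp only [rbd_image, ← hf]
    exact h.brun.image f

theorem Data.exists_generic (h : Data W A B) : ∃ A' B' : Fin m → Set V, Data W A' B' ∧ Gen W A' ∧
    Reach (fun i => rbd (A i) (B i)) (fun i => rbd (A' i) (B' i)) := by
  classical
  obtain ⟨η, hη, hm⟩ := small_move (V := V) 1 one_pos
  obtain ⟨δ, hδ, hδ0⟩ : ∃ δ : ℝ, (∀ i j, i ≠ j → ∀ x ∈ rbd (A i) (B i), ∀ z ∈ rbd (A j) (B j),
      δ ≤ dist x z) ∧ 0 < δ := by
    have : ∀ᶠ δ in 𝓝[>] (0 : ℝ), ∀ i j, i ≠ j → ∀ x ∈ rbd (A i) (B i), ∀ z ∈ rbd (A j) (B j),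
        δ ≤ dist x z := by
      rw [Filter.eventually_all]
      intro i
      rw [Filter.eventually_all]
      intro j
      rw [Filter.eventually_all]
      intro hij
      obtain ⟨a, ha, hb⟩ := exists_sep (h.body i).isCompact_rbd (h.body j).isCompact_rbd.isClosed
        (h.disj i j hij)
      filter_upwards [Ioc_mem_nhdsGT ha] with δ hδ x x1 z z1
      exact hδ.2.trans (hb x x1 z z1)
    exact (this.and self_mem_nhdsWithin).exists
  choose a ha using fun i => (h.body i).ne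
  let S : Set (Fin m) → Submodule ℝ (Fin m → V) := fun s =>
    { carrier := {y | ∃ x, ∀ i ∈ s, x - y i ∈ W i}
      add_mem' := by
        rintro y z ⟨x, hx⟩ ⟨x', hx'⟩
        refine ⟨x + x', fun i hi => ?_⟩
        rw [Pi.add_apply, add_sub_add_comm]
        exact (W i).add_mem (hx i hi) (hx' i hi)
      zero_mem' := ⟨0, fun i _ => by simp⟩
      smul_mem' := by
        rintro t y ⟨x, hx⟩
        refine ⟨t • x, fun i hi => ?_⟩
        rw [Pi.smul_apply, ← smul_sub]
        exact (W i).smul_mem t (hx i hi) }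
  have hdense : Dense (⋂ s : {s // S s ≠ ⊤}, (S s : Set (Fin m → V))ᶜ) := by
    refine dense_iInter_of_isOpen (fun s => (S s).closed_of_finiteDimensional.isOpen_compl)
      fun s => interior_eq_empty_iff_dense_compl.mp ?_
    by_contra hne
    exact s.2 (Submodule.eq_top_of_nonempty_interior' _ (nonempty_iff_ne_empty.mpr hne))
  obtain ⟨y, y1, y2⟩ := hdense.exists_mem_open isOpen_ball
    ⟨a, mem_ball_self (lt_min hη (by positivity : 0 < η * δ / 2))⟩
  have hv : ∀ i, ‖(y - a) i‖ ≤ min η (η * δ / 2) := fun i =>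
    (norm_le_pi_norm _ i).trans (mem_ball_iff_norm.mp y2).le
  let g : V → V := fun x => if h : ∃ i, x ∈ rbd (A i) (B i) then (y - a) h.choose else 0
  have hg : ∀ i, ∀ x ∈ rbd (A i) (B i), g x = (y - a) i := by
    intro i x hx
    have hex : ∃ i, x ∈ rbd (A i) (B i) := ⟨i, hx⟩
    have : hex.choose = i := by
      by_contra hne
      exact disjoint_left.mp (h.disj _ _ hne) hex.choose_spec hx
    simp only [g, dif_pos hex, this]
  obtain ⟨f, f1, f2, -⟩ := hm (⋃ i, rbd (A i) (B i)) ∅ g (by simp) (by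
    intro x hx z hz
    obtain ⟨i, hi⟩ := mem_iUnion.mp hx
    obtain ⟨j, hj⟩ := mem_iUnion.mp hz
    rw [hg i x hi, hg j z hj]
    by_cases hij : i = j
    · rw [hij, sub_self, norm_zero]
      positivity
    · have := hδ i j hij x hi z hj
      rw [dist_eq_norm] at this
      refine (norm_sub_le _ _).trans ?_
      nlinarith [(hv i).trans (min_le_right _ _), (hv j).trans (min_le_right _ _)]) (by
    intro x hx
    obtain ⟨i, hi⟩ := mem_iUnion.mp hx
    rw [hg i x hi]
    exact (hv i).trans (min_le_left _ _))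
  have hf : ∀ i, f '' rbd (A i) (B i) = Homeomorph.addRight ((y - a) i) '' rbd (A i) (B i) :=
    fun i => image_congr fun x hx => by rw [f2 x (mem_iUnion.mpr ⟨i, hx⟩), hg i x hx]; rfl
  have hd := h.translate (y - a) f hf
  refine ⟨_, _, hd, ?_, f, f1, fun i => (hf i).trans (rbd_image _).symm⟩
  rintro s ⟨p, hp⟩ z
  have hS : S s = ⊤ := by
    by_contra hne
    refine mem_iInter.mp y1 ⟨s, hne⟩ ⟨p, fun i hi => ?_⟩
    exact ((hd.body i).flat (y i) ⟨a i, (ha i).1, by simp⟩ p).mp (hp i hi)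
  have : z ∈ S s := hS ▸ Submodule.mem_top
  exact this

theorem Gen.pair (h : Gen W A) {i k : Fin m} (hik : k ≠ i) {p : V} (h1 : p ∈ A i) (h2 : p ∈ A k)
    (y : V) : ∃ x ∈ W i, x - y ∈ W k := by
  obtain ⟨x, hx⟩ := h {i, k} ⟨p, by simp [h1, h2]⟩ (fun l => if l = i then 0 else y)
  exact ⟨x, by simpa using hx i (by simp), by simpa [hik] using hx k (by simp)⟩

theorem Gen.crt (h : Gen W A) {i j k : Fin m} (hij : j ≠ i) (hjk : k ≠ j) (hki : k ≠ i) {p : V}
    (h1 : p ∈ A i) (h2 : p ∈ A j) (h3 : p ∈ A k) : Crt (W i) (W j) (W k) := by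
  intro y1 y2 y3
  obtain ⟨x, hx⟩ := h {i, j, k} ⟨p, by simp [h1, h2, h3]⟩
    (fun l => if l = i then y1 else if l = j then y2 else y3)
  exact ⟨x, by simpa using hx i (by simp), by simpa [hij] using hx j (by simp),
    by simpa [hjk, hki] using hx k (by simp)⟩

theorem Data.ne_top (h : Data W A B) {i k : Fin m} (hik : k ≠ i)
    (hp : B k ∩ A i ⊆ rint (A i) (B i)) : W i ≠ ⊤ :=
  (h.body i).ne_top (h.bb k).nonempty rbd_subset hp (h.brun.pair hik)

theorem Data.exists_cycle (h : Data W A B) (hg : Gen W A) : ∃ p i j k, j ≠ i ∧ k ≠ j ∧ i ≠ k ∧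
    p ∈ B i ∧ p ∈ B j ∧ p ∈ B k ∧ B i ∩ A j ⊆ rint (A j) (B j) ∧ B j ∩ A k ⊆ rint (A k) (B k) ∧
    B k ∩ A i ⊆ rint (A i) (B i) := by
  by_contra hc
  let E : Fin m → Fin m → Prop := fun k i => k ≠ i ∧ B k ∩ A i ⊆ rint (A i) (B i) ∧
    (B i ∩ A k ⊆ rint (A k) (B k) → k < i)
  obtain ⟨C, ⟨f, -, f2⟩, c2, c3⟩ := sweep h.body (E := E) (fun k i e => e.2.1)
    (fun k i e e' => lt_asymm (e.2.2 e'.2.1) (e'.2.2 e.2.1)) (by
      rintro i k hik ⟨p, hp⟩
      have := (h.body i).pair (h.body k) (h.disj i k hik) ⟨p, hp⟩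
        (hg.pair hik.symm ((h.body i).sub hp.1) ((h.body k).sub hp.2)) (h.brun.pair hik.symm)
      by_cases h1 : B k ∩ A i ⊆ rint (A i) (B i)
      · by_cases h2 : B i ∩ A k ⊆ rint (A k) (B k)
        · rcases lt_or_gt_of_ne hik with l | l
          · exact Or.inl ⟨hik, h2, fun _ => l⟩
          · exact Or.inr ⟨hik.symm, h1, fun _ => l⟩
        · exact Or.inr ⟨hik.symm, h1, fun k => absurd k h2⟩
      · exact Or.inl ⟨hik, this.resolve_left h1, fun k => absurd k h1⟩) (by
      intro k i e hs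
      apply h.ne_top e.1 e.2.1
      obtain ⟨o, ho⟩ := (h.body k).ne
      rw [Submodule.eq_top_iff']
      intro y
      obtain ⟨x, x1, x2⟩ := hg.pair e.1 (hs ho.1) ho.1 y
      have := ((h.body i).flat.add_mem (hs ho.1)).mp (hs (((h.body k).flat.add_mem ho.1).mpr x2))
      simpa using (W i).sub_mem x1 this)
    (fun p i j k e1 e2 e3 p1 p2 p3 => hc ⟨p, i, j, k, e1.1.symm, e2.1.symm, e3.1.symm, p1, p2, p3,
      e1.2.1, e2.2.1, e3.2.1⟩)
  apply h.brun.2.1
  apply IsUnlinkOn.of_image f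
  simp only [f2]
  exact fun i _ => ⟨C i, (h.body i).boundsBall (c2 i) (h.bb i),
    fun j _ hji => (c3 i j hji.symm).mono_right rbd_subset⟩

end

theorem Data.standard {n m : ℕ} {W : Fin m → Submodule ℝ (Euc n)} {A B : Fin m → Set (Euc n)}
    (h : Data W A B) (hg : Gen W A) : ∃ (i j : ℕ) (f : Euc n ≃ₜ Euc n), 1 ≤ i ∧ i + j + 2 ≤ n ∧
      IsoId f ∧ f '' (⋃ r, rbd (A r) (B r)) = famL i j n := by
  obtain ⟨p, a, b, c, n1, n2, n3, p1, p2, p3, e1, e2, e3⟩ := h.exists_cycle hg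
  have hcrt := hg.crt n1 n2 n3.symm ((h.body a).sub p1) ((h.body b).sub p2) ((h.body c).sub p3)
  have t1 := h.ne_top n3.symm e3
  have t2 := h.ne_top n1.symm e1
  have t3 := h.ne_top n2.symm e2
  let f := Homeomorph.addRight (-p)
  have hd : Data W (fun i => f '' A i) (fun i => f '' B i) := h.translate (fun _ => -p) f fun _ => rfl
  have hA : ∀ r, p ∈ B r → f '' A r = W r := by
    intro r hr
    ext x
    rw [(hd.body r).flat 0 ⟨p, (h.body r).sub hr, by simp [f]⟩ x, sub_zero]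
    rfl
  have hp : ∀ r s, p ∈ B s → B r ∩ A s ⊆ rint (A s) (B s) →
      f '' B r ∩ W s ⊆ rint (W s) (f '' B s) := by
    intro r s hs e
    rw [← hA s hs, rint_image, ← image_inter f.injective]
    exact image_mono e
  have hz : ∀ r, p ∈ B r → 0 ∈ f '' B r := fun r hr => ⟨p, hr, by simp [f]⟩
  have hcyc : Cyc (W a) (W b) (W c) (f '' B a) (f '' B b) (f '' B c) :=
    ⟨hA a p1 ▸ hd.body a, hA b p2 ▸ hd.body b, hA c p3 ▸ hd.body c, hz a p1, hz b p2, hz c p3,
      hp a b p2 e1, hp b c p3 e2, hp c a p1 e3⟩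
  have huniv : ({a, b, c} : Set (Fin m)) = univ := by
    by_contra hne
    apply hcyc.not_nullIn hcrt t2 t3
    rw [← hA a p1, ← hA b p2, ← hA c p3]
    refine (hd.brun.2.2 _ hne).nullIn (i := a) (by simp) ?_
    rintro x (hx | hx)
    · exact ⟨b, by simp, n1, hx⟩
    · exact ⟨c, by simp, n3.symm, hx⟩
  obtain ⟨i, j, h1, h2, g, g0, g1, g2, g3⟩ := hcyc.standard hcrt t1 t2 t3
  refine ⟨i, j, f.trans g, h1, h2, (isoId_translate _).trans g0, ?_⟩
  rw [← hA a p1, rbd_image] at g1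
  rw [← hA b p2, rbd_image] at g2
  rw [← hA c p3, rbd_image] at g3
  have : (⋃ r, rbd (A r) (B r)) = rbd (A a) (B a) ∪ rbd (A b) (B b) ∪ rbd (A c) (B c) := by
    rw [← biUnion_univ, ← huniv]
    simp [union_assoc]
  rw [this, famL, ← g1, ← g2, ← g3, ← image_union, ← image_union, ← image_union, ← image_union]
  exact (image_image g f _).symm

theorem main (n m : ℕ) (F : Fin m → Set (Euc n)) (h1 : IsLink F) (h2 : ∀ i, IsConvexKnot (F i))
    (h3 : IsBrunnian F) :
    ∃ i j, 1 ≤ i ∧ i + j + 2 ≤ n ∧ AmbientIsotopic (⋃ r, F r) (famL i j n) := by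
  choose B b1 b2 using h2
  choose W A a1 a2 using fun i => body_of_convex (b1 i) (b2 i)
  obtain rfl : F = fun i => rbd (A i) (B i) := funext a2
  have hd : Data W A B := ⟨a1, b2, h1.2, h3⟩
  obtain ⟨A', B', d1, d2, f, f1, f2⟩ := hd.exists_generic
  obtain ⟨i, j, g, g1, g2, g3, g4⟩ := d1.standard d2
  obtain ⟨H, k1, k2, k3⟩ := f1.trans g3
  refine ⟨i, j, g1, g2, H, k1, k2, ?_⟩
  rw [k3, ← g4]
  simp only [← f2, ← image_iUnion]
  exact (image_image g f _).symm

end Pool.Agent.Lib.MP_1a97ab_gt
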