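import Pool.Agent.Lib.MP_1a97ab_gt.Body

set_option autoImplicit false
set_option linter.unusedSectionVars false

open Set Metric Pool.Agent.Shared.Brouwer
open scoped NNReal Topology

namespace Pool.Agent.Lib.MP_1a97ab_gt

variable {V : Type} [NormedAddCommGroup V] [InnerProductSpace ℝ V] [FiniteDimensional ℝ V]

theorem exists_sep {S Z : Set V} (hS : IsCompact S) (hZ : IsClosed Z) (hd : Disjoint S Z) :
    ∃ δ : ℝ, 0 < δ ∧ ∀ x ∈ S, ∀ z ∈ Z, δ ≤ dist x z := by
  obtain ⟨r, hr, h⟩ := Metric.exists_pos_forall_lt_edist hS hZ hd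
  refine ⟨r, hr, fun x hx z hz => ?_⟩
  have := h x hx z hz
  rw [edist_dist, ← ENNReal.ofReal_coe_nnreal] at this
  exact ((ENNReal.ofReal_lt_ofReal_iff_of_nonneg r.2).mp this).le

theorem flow_move {S Z K : Set V} (hS : IsCompact S) (hZ : IsClosed Z) (hd : Disjoint S Z)
    {ψ : V → V} {L : ℝ≥0} (hL : LipschitzOnWith L ψ S)
    (hK : ∀ x ∈ K, ∀ t : ℝ, 0 ≤ t → t ≤ 1 → x + t • ψ x ∈ S ∧ ψ (x + t • ψ x) = ψ x) :
    ∃ h : V ≃ₜ V, IsoId h ∧ (∀ x ∈ K, h x = x + ψ x) ∧ ∀ z ∈ Z, h z = z := by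
  obtain ⟨δ, hδ, hsep⟩ := exists_sep hS hZ hd
  obtain ⟨η, hη, hm⟩ := small_move (V := V) δ hδ
  obtain ⟨M, hM⟩ := hS.exists_bound_of_continuousOn hL.continuousOn
  obtain ⟨n, hn⟩ := exists_nat_gt (max ((L : ℝ) / η) (max (M / η) 0))
  have hn0 : (0 : ℝ) < n := lt_of_le_of_lt ((le_max_right _ _).trans (le_max_right _ _)) hn
  have hn1 : (L : ℝ) < n * η := (div_lt_iff₀ hη).mp (lt_of_le_of_lt (le_max_left _ _) hn)
  have hn2 : M < n * η :=
    (div_lt_iff₀ hη).mp (lt_of_le_of_lt ((le_max_left _ _).trans (le_max_right _ _)) hn)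
  obtain ⟨h0, k1, k2, k3⟩ := hm S Z (fun x => (n : ℝ)⁻¹ • ψ x) hsep (by
    intro x hx y hy
    rw [← smul_sub, norm_smul, norm_inv, Real.norm_of_nonneg hn0.le, inv_mul_le_iff₀ hn0]
    have := hL.dist_le_mul x hx y hy
    rw [dist_eq_norm, dist_eq_norm] at this
    nlinarith [norm_nonneg (x - y)]) (by
    intro x hx
    rw [norm_smul, norm_inv, Real.norm_of_nonneg hn0.le, inv_mul_le_iff₀ hn0]
    linarith [hM x hx])
  have key : ∀ j : ℕ, j ≤ n → ∃ h : V ≃ₜ V, IsoId h ∧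
      (∀ x ∈ K, h x = x + ((j : ℝ) / n) • ψ x) ∧ ∀ z ∈ Z, h z = z := by
    intro j
    induction j with
    | zero => exact fun _ => ⟨Homeomorph.refl V, IsoId.refl, fun x _ => by simp, fun z _ => rfl⟩
    | succ j ih =>
      intro hj
      obtain ⟨h, h1, h2, h3⟩ := ih (by omega)
      refine ⟨h.trans h0, h1.trans k1, fun x hx => ?_, fun z hz => ?_⟩
      · have hj' : (j : ℝ) ≤ n := by exact_mod_cast (by omega : j ≤ n)
        obtain ⟨m1, m2⟩ := hK x hx ((j : ℝ) / n) (by positivity) ((div_le_one hn0).mpr hj')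
        rw [Homeomorph.trans_apply, h2 x hx, k2 _ m1, m2, add_assoc, ← add_smul]
        congr 2
        push_cast
        field_simp
      · rw [Homeomorph.trans_apply, h3 z hz, k3 z hz]
  obtain ⟨h, h1, h2, h3⟩ := key n le_rfl
  exact ⟨h, h1, fun x hx => by rw [h2 x hx, div_self hn0.ne', one_smul], h3⟩

variable {W : Submodule ℝ V} {A B B' : Set V}

/-- A convex knot can be replaced by another one in the same flat if the region between them is
free of obstacles. -/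
theorem Body.move (h : Body W A B) (h' : Body W A B') {o : V} (ho : o ∈ rint A B)
    (ho' : o ∈ rint A B') {Z : Set V} (hZ : IsClosed Z) (d1 : Disjoint (B \ rint A B') Z)
    (d2 : Disjoint (B' \ rint A B) Z) :
    ∃ f : V ≃ₜ V, IsoId f ∧ f '' rbd A B = rbd A B' ∧ ∀ z ∈ Z, f z = z := by
  obtain ⟨N, hN⟩ := h.exists_gauge ho
  obtain ⟨N', hN'⟩ := h'.exists_gauge ho'
  let S : Set V := (B \ rint A B') ∪ (B' \ rint A B)
  have hS : IsCompact S :=
    (isCompact_diff_rint h.cpt h.sub).union (isCompact_diff_rint h'.cpt h'.sub)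
  have hSW : ∀ x ∈ S, x - o ∈ W ∧ x - o ≠ 0 := by
    rintro x (hx | hx)
    · refine ⟨(h.flat o ho.1 x).mp (h.sub hx.1), fun e => hx.2 ?_⟩
      rwa [sub_eq_zero.mp e]
    · refine ⟨(h.flat o ho.1 x).mp (h'.sub hx.1), fun e => hx.2 ?_⟩
      rwa [sub_eq_zero.mp e]
  let ψ : V → V := fun x => ((N' (x - o))⁻¹ - (N (x - o))⁻¹) • (x - o)
  have hψ : ∃ L, LipschitzOnWith L ψ S := by
    let Φ : V → ℝ × ℝ × V := fun x => (N (x - o), N' (x - o), x - o)
    let F : ℝ × ℝ × V → V := fun p => (p.2.1⁻¹ - p.1⁻¹) • p.2.2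
    obtain ⟨L1, l1⟩ := hN.lip
    obtain ⟨L2, l2⟩ := hN'.lip
    have l0 : LipschitzWith 1 (fun x : V => x - o) := 
      LipschitzWith.of_dist_le_mul fun x y => by simp [dist_eq_norm]
    have hΦ : LipschitzWith _ Φ := (l1.comp l0).prodMk ((l2.comp l0).prodMk l0)
    have hF : LocallyLipschitzOn (Φ '' S) F := by
      rintro _ ⟨x, hx, rfl⟩
      have p1 := hN.pos (hSW x hx).1 (hSW x hx).2
      have p2 := hN'.pos (hSW x hx).1 (hSW x hx).2
      have hc : ContDiffAt ℝ 1 F (Φ x) := by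
        refine ContDiffAt.smul (ContDiffAt.sub ?_ ?_) (by fun_prop)
        · exact ContDiffAt.inv (by fun_prop) p2.ne'
        · exact ContDiffAt.inv (by fun_prop) p1.ne'
      obtain ⟨K, t, ht, hK⟩ := hc.exists_lipschitzOnWith
      exact ⟨K, t, mem_nhdsWithin_of_mem_nhds ht, hK⟩
    obtain ⟨K, hK⟩ := hF.exists_lipschitzOnWith_of_compact (hS.image hΦ.continuous)
    exact ⟨_, hK.comp hΦ.lipschitzOnWith (mapsTo_image _ _)⟩
  obtain ⟨L, hL⟩ := hψ
  have hψ0 : ∀ w ∈ W, w ≠ 0 → ∀ c : ℝ, 0 < c → ψ (o + c • w) = ψ (o + w) := by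
    intro w hw h0 c hc
    simp only [ψ, add_sub_cancel_left, hN.hom c hc.le, hN'.hom c hc.le, smul_smul]
    congr 1
    have p1 := hN.pos hw h0
    have p2 := hN'.pos hw h0
    field_simp
  have hrep : ∀ x ∈ rbd A B, ∃ w ∈ W, w ≠ 0 ∧ N w = 1 ∧ x = o + w := by
    intro x hx
    have hw : x - o ∈ W := (h.flat o ho.1 x).mp (h.sub hx.1)
    have h1 : N (x - o) = 1 := (hN.eq hw).mp (by simpa using hx)
    refine ⟨x - o, hw, fun e => ?_, h1, by simp⟩
    rw [e, hN.zero] at h1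
    exact zero_ne_one h1
  obtain ⟨f, f1, f2, f3⟩ := flow_move (K := rbd A B) hS hZ (disjoint_union_left.mpr ⟨d1, d2⟩) hL (by
    intro x hx t t0 t1
    obtain ⟨w, hw, h0, h1, rfl⟩ := hrep x hx
    have p2 := hN'.pos hw h0
    have e : o + w + t • ψ (o + w) = o + ((1 - t) + t * (N' w)⁻¹) • w := by
      simp only [ψ, add_sub_cancel_left, h1, inv_one]
      module
    have hc : 0 < (1 - t) + t * (N' w)⁻¹ := by
      have := inv_pos.mpr p2
      rcases t1.lt_or_eq with k | k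
      · nlinarith [mul_nonneg t0 this.le]
      · subst k; simpa using p2
    rw [e, hψ0 w hw h0 _ hc]
    refine ⟨?_, rfl⟩
    have hw' := W.smul_mem ((1 - t) + t * (N' w)⁻¹) hw
    have e1 : N (((1 - t) + t * (N' w)⁻¹) • w) = (1 - t) + t * (N' w)⁻¹ := by
      rw [hN.hom _ hc.le, h1, mul_one]
    have e2 : N' (((1 - t) + t * (N' w)⁻¹) • w) = (1 - t) * N' w + t := by
      rw [hN'.hom _ hc.le]
      field_simp
    rcases le_total 1 (N' w) with k | k
    · left
      have : (N' w)⁻¹ ≤ 1 := inv_le_one_of_one_le₀ k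
      refine ⟨(hN.le _ hw').mpr (by rw [e1]; nlinarith), fun hr => ?_⟩
      have := (hN'.lt _ hw').mp hr
      rw [e2] at this
      nlinarith
    · right
      have : 1 ≤ (N' w)⁻¹ := (one_le_inv₀ p2).mpr k
      refine ⟨(hN'.le _ hw').mpr (by rw [e2]; nlinarith), fun hr => ?_⟩
      have := (hN.lt _ hw').mp hr
      rw [e1] at this
      nlinarith)
  have hf : ∀ w ∈ W, N w = 1 → f (o + w) = o + (N' w)⁻¹ • w := by
    intro w hw h1
    rw [f2 _ ((hN.eq hw).mpr h1)]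
    simp only [ψ, add_sub_cancel_left, h1, add_assoc, sub_smul, inv_one, one_smul]
    congr 1
    abel
  refine ⟨f, f1, Subset.antisymm ?_ ?_, f3⟩
  · rintro _ ⟨x, hx, rfl⟩
    obtain ⟨w, hw, h0, h1, rfl⟩ := hrep x hx
    rw [hf w hw h1]
    exact hN'.exit hw h0
  · intro y hy
    have hw : y - o ∈ W := (h.flat o ho.1 y).mp (h'.sub hy.1)
    have h1 : N' (y - o) = 1 := (hN'.eq hw).mp (by simpa using hy)
    have h0 : y - o ≠ 0 := fun e => by
      rw [e, hN'.zero] at h1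
      exact zero_ne_one h1
    have p1 := hN.pos hw h0
    refine ⟨_, hN.exit hw h0, ?_⟩
    rw [hf _ (W.smul_mem _ hw) (by rw [hN.hom _ (inv_pos.mpr p1).le, inv_mul_cancel₀ p1.ne']),
      hN'.hom _ (inv_pos.mpr p1).le, h1, smul_smul]
    simp [p1.ne']

/-- The sublevel set of a linear norm in a flat. -/
def nball {Y : Type} [NormedAddCommGroup Y] [NormedSpace ℝ Y] (A : Set V) (o : V)
    (D : V →L[ℝ] Y) : Set V := {x | x ∈ A ∧ ‖D (x - o)‖ ≤ 1}

section nball

variable {Y : Type} [NormedAddCommGroup Y] [NormedSpace ℝ Y] {o : V} {D : V →L[ℝ] Y}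

theorem mem_rint_nball_of_lt {x : V} (hx : x ∈ A) (h : ‖D (x - o)‖ < 1) :
    x ∈ rint A (nball A o D) := by
  refine ⟨hx, ?_⟩
  have : {y | ‖D (y - o)‖ < 1} ∈ 𝓝 x :=
    (isOpen_lt (by fun_prop) continuous_const).mem_nhds h
  filter_upwards [self_mem_nhdsWithin, mem_nhdsWithin_of_mem_nhds this] with y h1 h2
  exact ⟨h1, le_of_lt h2⟩

theorem mem_rint_nball (hA : Flat W A) (ho : o ∈ A) {x : V} :
    x ∈ rint A (nball A o D) ↔ x ∈ A ∧ ‖D (x - o)‖ < 1 := by
  refine ⟨fun h => ⟨h.1, ?_⟩, fun h => mem_rint_nball_of_lt h.1 h.2⟩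
  obtain ⟨hx, ε, hε, hb⟩ := mem_rint_iff.mp h
  have hw : x - o ∈ W := (hA o ho x).mp hx
  let t : ℝ := ε / (‖x - o‖ + 1)
  have ht : 0 < t := by positivity
  have := (hb (x + t • (x - o)) ((hA.add_mem hx).mpr (W.smul_mem _ hw)) (by
    rw [dist_self_add_left, norm_smul, Real.norm_of_nonneg ht.le, div_mul_eq_mul_div,
      div_lt_iff₀ (by positivity)]
    nlinarith)).2
  have e : x + t • (x - o) - o = (1 + t) • (x - o) := by
    rw [add_smul, one_smul]; abel
  rw [e, map_smul, norm_smul, Real.norm_of_nonneg (by linarith)] at this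
  by_contra hc
  nlinarith [not_lt.mp hc]

theorem mem_rbd_nball (hA : Flat W A) (ho : o ∈ A) {x : V} :
    x ∈ rbd A (nball A o D) ↔ x ∈ A ∧ ‖D (x - o)‖ = 1 := by
  unfold rbd
  rw [mem_sdiff, mem_rint_nball hA ho]
  exact ⟨fun h => ⟨h.1.1, le_antisymm h.1.2 (not_lt.mp fun k => h.2 ⟨h.1.1, k⟩)⟩,
    fun h => ⟨⟨h.1, h.2.le⟩, fun k => k.2.ne h.2⟩⟩

theorem body_nball (hA : Flat W A) (ho : o ∈ A) (c : ℝ) (hD : ∀ w, ‖w‖ ≤ c * ‖D w‖) :
    Body W A (nball A o D) := by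
  refine ⟨hA, ?_, ?_, fun x hx => hx.1, ⟨o, mem_rint_nball_of_lt ho (by simp)⟩⟩
  · intro x hx y hy a b ha hb hab
    refine ⟨hA.convex hx.1 hy.1 ha hb hab, ?_⟩
    have e : a • x + b • y - o = a • (x - o) + b • (y - o) := by
      have : o = a • o + b • o := by rw [← add_smul, hab, one_smul]
      conv_lhs => rw [this]
      simp only [smul_sub]; abel
    rw [e, map_add, map_smul, map_smul]
    refine (norm_add_le _ _).trans ?_
    rw [norm_smul, norm_smul, Real.norm_of_nonneg ha, Real.norm_of_nonneg hb]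
    nlinarith [hx.2, hy.2]
  · refine Metric.isCompact_of_isClosed_isBounded
      (hA.isClosed.inter (isClosed_le (f := fun x => ‖D (x - o)‖) (g := fun _ => 1) (by fun_prop)
        continuous_const)) ?_
    refine (isBounded_closedBall (x := o) (r := |c|)).subset fun x hx => ?_
    rw [mem_closedBall, dist_eq_norm]
    refine (hD _).trans ?_
    nlinarith [hx.2, le_abs_self c, abs_nonneg c, norm_nonneg (D (x - o))]

end nball

/-- Small balls inside a body. -/
theorem Body.exists_small (h : Body W A B) {q : V} (hq : q ∈ rint A B) {U : Set V} (hU : U ∈ 𝓝 q) :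
    ∃ D, Body W A D ∧ D ⊆ B ∧ D ⊆ U := by
  obtain ⟨-, ε, hε, hb⟩ := mem_rint_iff.mp hq
  obtain ⟨ε', hε', hb'⟩ := Metric.mem_nhds_iff.mp hU
  let r : ℝ := min ε ε' / 2
  have hr : 0 < r := by positivity
  have key : ∀ x ∈ nball A q (r⁻¹ • ContinuousLinearMap.id ℝ V), dist x q ≤ r := by
    intro x hx
    have := hx.2
    rw [smul_apply, ContinuousLinearMap.id_apply, norm_smul, norm_inv,
      Real.norm_of_nonneg hr.le, inv_mul_le_iff₀ hr, mul_one] at this
    rwa [dist_eq_norm]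
  have r1 : r < ε := by have := min_le_left ε ε'; simp only [r]; linarith
  have r2 : r < ε' := by have := min_le_right ε ε'; simp only [r]; linarith
  refine ⟨nball A q (r⁻¹ • ContinuousLinearMap.id ℝ V), body_nball h.flat hq.1 r fun w => ?_,
    fun x hx => hb x hx.1 ((key x hx).trans_lt r1), fun x hx => hb' ((key x hx).trans_lt r2)⟩
  rw [smul_apply, ContinuousLinearMap.id_apply, norm_smul, norm_inv,
    Real.norm_of_nonneg hr.le, ← mul_assoc, mul_inv_cancel₀ hr.ne', one_mul]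

/-- A body contains a smaller body avoiding a flat that does not contain its own flat. -/
theorem Body.exists_avoid (h : Body W A B) {W' : Submodule ℝ V} {A' : Set V} (hA' : Flat W' A')
    (hn : ¬ A ⊆ A') : ∃ D, Body W A D ∧ D ⊆ B ∧ Disjoint D A' := by
  have key : ∃ q ∈ rint A B, q ∉ A' := by
    obtain ⟨o, ho⟩ := h.ne
    by_cases ho' : o ∈ A'
    · obtain ⟨a, ha, ha'⟩ := not_subset.mp hn
      obtain ⟨N, hN⟩ := h.exists_gauge ho
      have hw : a - o ∈ W := (h.flat o ho.1 a).mp ha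
      have p := hN.nonneg hw
      have ht : 0 < (N (a - o) + 1)⁻¹ := by positivity
      refine ⟨o + (N (a - o) + 1)⁻¹ • (a - o), ?_, fun k => ha' ?_⟩
      · rw [hN.lt _ (W.smul_mem _ hw), hN.hom _ ht.le, inv_mul_lt_iff₀ (by positivity)]
        linarith
      · rw [hA'.add_mem ho', W'.smul_mem_iff ht.ne'] at k
        exact (hA' o ho' a).mpr k
    · exact ⟨o, ho, ho'⟩
  obtain ⟨q, hq, hq'⟩ := key
  obtain ⟨D, d1, d2, d3⟩ := h.exists_small hq (hA'.isClosed.isOpen_compl.mem_nhds hq')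
  exact ⟨D, d1, d2, disjoint_left.mpr fun x hx => d3 hx⟩

theorem Body.exists_avoid_all (h : Body W A B) {ι : Type} (s : Finset ι)
    {W' : ι → Submodule ℝ V} {A' : ι → Set V} (hA' : ∀ j ∈ s, Flat (W' j) (A' j))
    (hn : ∀ j ∈ s, ¬ A ⊆ A' j) : ∃ D, Body W A D ∧ D ⊆ B ∧ ∀ j ∈ s, Disjoint D (A' j) := by
  classical
  induction s using Finset.induction_on with
  | empty => exact ⟨B, h, Subset.rfl, by simp⟩
  | insert a s _ ih =>
    obtain ⟨D, d1, d2, d3⟩ := ih (fun j hj => hA' j (Finset.mem_insert_of_mem hj))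
      (fun j hj => hn j (Finset.mem_insert_of_mem hj))
    obtain ⟨D', e1, e2, e3⟩ := d1.exists_avoid (hA' a (Finset.mem_insert_self _ _))
      (hn a (Finset.mem_insert_self _ _))
    refine ⟨D', e1, e2.trans d2, fun j hj => ?_⟩
    rcases Finset.mem_insert.mp hj with rfl | hj
    · exact e3
    · exact (d3 j hj).mono_left e2

/-- Cutting a body by a sublevel set of a convex function. -/
theorem Body.sublevel (h : Body W A B) {φ : V → ℝ} (hc : Continuous φ) (hv : ConvexOn ℝ univ φ)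
    {r : ℝ} (hr : ∃ y ∈ B, φ y < r) : Body W A (B ∩ {x | φ x ≤ r}) ∧
      ∀ x ∈ rint A B, φ x < r → x ∈ rint A (B ∩ {x | φ x ≤ r}) := by
  have key : ∀ x ∈ rint A B, φ x < r → x ∈ rint A (B ∩ {x | φ x ≤ r}) := by
    intro x hx hx'
    refine ⟨hx.1, Filter.inter_mem hx.2 (mem_nhdsWithin_of_mem_nhds ?_)⟩
    exact Filter.mem_of_superset ((isOpen_lt hc continuous_const).mem_nhds hx')
      (fun y hy => show φ y ≤ r from le_of_lt hy)
  refine ⟨⟨h.flat, h.conv.inter ?_, h.cpt.inter_right (isClosed_le hc continuous_const),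
    inter_subset_left.trans h.sub, ?_⟩, key⟩
  · simpa using hv.convex_le r
  · obtain ⟨y, hy, hy'⟩ := hr
    obtain ⟨o, ho⟩ := h.ne
    have hcont : Continuous fun τ : ℝ => φ ((1 - τ) • o + τ • y) := by fun_prop
    have h1 : {τ : ℝ | φ ((1 - τ) • o + τ • y) < r} ∈ 𝓝 (1 : ℝ) :=
      (isOpen_lt hcont continuous_const).mem_nhds (by simpa using hy')
    have h2 : Ioo (0 : ℝ) 1 ∈ 𝓝[<] (1 : ℝ) := Ioo_mem_nhdsLT zero_lt_one
    obtain ⟨τ, t1, t2⟩ := Filter.nonempty_of_mem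
      (Filter.inter_mem h2 (mem_nhdsWithin_of_mem_nhds h1))
    exact ⟨_, key _ (h.segment_mem ho hy t1.1.le t1.2) t2⟩

end Pool.Agent.Lib.MP_1a97ab_gt
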