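import Pool.Agent.Lib.MP_1a97ab_gt.Triple

set_option autoImplicit false
set_option linter.unusedSectionVars false

open Set Metric Pool.Agent.Shared.Brouwer Matrix
open scoped NNReal Topology

namespace Pool.Agent.Lib.MP_1a97ab_gt

variable {n : ℕ}

/-- A diagonal linear map. -/
noncomputable def dg (d : Fin n → ℝ) : Euc n →L[ℝ] Euc n :=
  LinearMap.toContinuousLinearMap
    { toFun := fun x => WithLp.toLp 2 fun l => d l * x l
      map_add' := fun x y => by ext l; simp [mul_add]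
      map_smul' := fun t x => by ext l; simp [mul_left_comm] }

theorem dg_apply (d : Fin n → ℝ) (x : Euc n) (l : Fin n) : dg d x l = d l * x l := rfl

/-- An invertible diagonal map as a homeomorphism. -/
noncomputable def dgH (d : Fin n → ℝ) (hd : ∀ l, d l ≠ 0) : Euc n ≃ₜ Euc n where
  toFun := dg d
  invFun := dg fun l => (d l)⁻¹
  left_inv := fun x => by ext l; simp [dg_apply, hd l]
  right_inv := fun x => by ext l; simp [dg_apply, hd l]
  continuous_toFun := (dg d).continuous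
  continuous_invFun := (dg _).continuous

/-- A shear. -/
noncomputable def shear (i j : Fin n) (h : i ≠ j) (c : ℝ) : Euc n ≃ₜ Euc n where
  toFun := fun x => x + (c * x j) • EuclideanSpace.single i (1 : ℝ)
  invFun := fun x => x - (c * x j) • EuclideanSpace.single i (1 : ℝ)
  left_inv := fun x => by simp [h.symm]
  right_inv := fun x => by simp [h.symm]
  continuous_toFun := by fun_prop
  continuous_invFun := by fun_prop

theorem isoId_shear (i j : Fin n) (h : i ≠ j) (c : ℝ) : IsoId (shear i j h c) := by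
  refine ⟨fun τ => shear i j h (τ * c), ?_, ?_, by simp⟩
  · change Continuous fun p : unitInterval × Euc n =>
      p.2 + (p.1 * c * p.2 j) • EuclideanSpace.single i (1 : ℝ)
    fun_prop
  · ext x l
    simp [shear]

theorem exists_isoId_matrix (M : Matrix (Fin n) (Fin n) ℝ) (hM : M.det ≠ 0) :
    ∃ (h : Euc n ≃ₜ Euc n) (d : Fin n → ℝ), (∀ l, d l ≠ 0) ∧ IsoId h ∧
      ∀ x l, h x l = d l * (M *ᵥ x.ofLp) l := by
  refine Matrix.diagonal_transvection_induction_of_det_ne_zero (fun M =>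
    ∃ (h : Euc n ≃ₜ Euc n) (d : Fin n → ℝ), (∀ l, d l ≠ 0) ∧ IsoId h ∧
      ∀ x l, h x l = d l * (M *ᵥ x.ofLp) l) M hM ?_ ?_ ?_
  · intro D hD
    have hd : ∀ l, D l ≠ 0 := by
      rw [det_diagonal, Finset.prod_ne_zero_iff] at hD
      exact fun l => hD l (Finset.mem_univ l)
    exact ⟨Homeomorph.refl _, fun l => (D l)⁻¹, fun l => inv_ne_zero (hd l), IsoId.refl,
      fun x l => by simp [mulVec_diagonal, hd l]⟩
  · rintro ⟨i, j, h, c⟩
    refine ⟨shear i j h c, fun _ => 1, fun _ => one_ne_zero, isoId_shear i j h c, fun x l => ?_⟩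
    simp [shear, transvection, add_mulVec, single_mulVec_eq, Pi.single_apply]
  · rintro A B - - ⟨f, d, f1, f2, f3⟩ ⟨g, e, g1, g2, g3⟩
    refine ⟨g.trans ((dgH e g1).symm.trans (f.trans (dgH e g1))), fun l => e l * d l,
      fun l => mul_ne_zero (g1 l) (f1 l), g2.trans (f2.conj _), fun x l => ?_⟩
    have : ((dgH e g1).symm (g x)).ofLp = B *ᵥ x.ofLp := by
      funext k
      change (e k)⁻¹ * g x k = _
      rw [g3, ← mul_assoc, inv_mul_cancel₀ (g1 k), one_mul]
    change e l * f ((dgH e g1).symm (g x)) l = _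
    rw [f3, this, mulVec_mulVec, mul_assoc]

theorem exists_isoId_linear (g : Euc n →ₗ[ℝ] (Fin n → ℝ)) (hg : ∀ x, g x = 0 → x = 0) :
    ∃ h : Euc n ≃ₜ Euc n, IsoId h ∧ (∀ x y, h x - h y = h (x - y)) ∧
      (∀ (t : ℝ) w, h (t • w) = t • h w) ∧ ∀ x l, h x l = 0 ↔ g x l = 0 := by
  let M := LinearMap.toMatrix' (g.comp (WithLp.linearEquiv 2 ℝ (Fin n → ℝ)).symm.toLinearMap)
  have hM : ∀ x : Euc n, M *ᵥ x.ofLp = g x := fun x => LinearMap.toMatrix'_mulVec _ _
  obtain ⟨h, d, h1, h2, h3⟩ := exists_isoId_matrix M (fun k => by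
    obtain ⟨v, hv, hv'⟩ := Matrix.exists_mulVec_eq_zero_iff.mpr k
    have := hg (WithLp.toLp 2 v) (by rw [← hM]; exact hv')
    exact hv (by simpa using this))
  simp only [hM] at h3
  refine ⟨h, h2, fun x y => ?_, fun t w => ?_, fun x l => by simp [h3, h1 l]⟩
  · ext l; simp [h3, mul_sub]
  · ext l; simp [h3, mul_left_comm]

/-- A coordinate subspace. -/
def cs (p : Fin n → Prop) : Submodule ℝ (Euc n) where
  carrier := {x | ∀ l, p l → x l = 0}
  add_mem' := fun hx hy l hl => by simp [hx l hl, hy l hl]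
  zero_mem' := fun l _ => rfl
  smul_mem' := fun t x hx l hl => by simp [hx l hl]

theorem mem_cs {p : Fin n → Prop} {x : Euc n} : x ∈ cs p ↔ ∀ l, p l → x l = 0 := Iff.rfl

theorem exists_coords {W1 W2 W3 : Submodule ℝ (Euc n)} (hc : Crt W1 W2 W3)
    (h0 : ∀ x ∈ W1, x ∈ W2 → x ∈ W3 → x = 0) (n1 : W1 ≠ ⊤) (n2 : W2 ≠ ⊤) (n3 : W3 ≠ ⊤) :
    ∃ (i j : ℕ) (h : Euc n ≃ₜ Euc n), 1 ≤ i ∧ i + j + 2 ≤ n ∧ IsoId h ∧
      (∀ x y, h x - h y = h (x - y)) ∧ (∀ (t : ℝ) w, h (t • w) = t • h w) ∧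
      (∀ w, h w ∈ cs (fun l => n ≤ l.val + j + 1) ↔ w ∈ W1) ∧
      (∀ w, h w ∈ cs (fun l => l.val < i) ↔ w ∈ W2) ∧
      (∀ w, h w ∈ cs (fun l => i ≤ l.val ∧ l.val + j + 1 < n) ↔ w ∈ W3) := by
  have := nontrivial_orth n1
  have := nontrivial_orth n2
  have := nontrivial_orth n3
  let T : Euc n →ₗ[ℝ] W2ᗮ × W3ᗮ × W1ᗮ :=
    ((qt W2).prod ((qt W3).prod (qt W1)) : Euc n →L[ℝ] W2ᗮ × W3ᗮ × W1ᗮ)
  have hT : ∀ x, T x = (qt W2 x, qt W3 x, qt W1 x) := fun x => rfl
  have hbij : Function.Bijective T := by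
    constructor
    · rw [injective_iff_map_eq_zero]
      intro w hw
      rw [hT, Prod.mk_eq_zero, Prod.mk_eq_zero, qt_eq_zero, qt_eq_zero, qt_eq_zero] at hw
      exact h0 w hw.2.2 hw.1 hw.2.1
    · rintro ⟨y2, y3, y1⟩
      obtain ⟨w, w1, w2, w3⟩ := hc y1 y2 y3
      exact ⟨w, by rw [hT, qt_of_sub w1, qt_of_sub w2, qt_of_sub w3]⟩
  have hdim := (LinearEquiv.ofBijective T hbij).finrank_eq
  rw [Module.finrank_prod, Module.finrank_prod, finrank_euclideanSpace_fin] at hdim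
  have pa := Module.finrank_pos (R := ℝ) (M := W2ᗮ)
  have pb := Module.finrank_pos (R := ℝ) (M := W3ᗮ)
  have pc := Module.finrank_pos (R := ℝ) (M := W1ᗮ)
  have bX := Module.finBasis ℝ W2ᗮ
  have bY := Module.finBasis ℝ W3ᗮ
  have bZ := Module.finBasis ℝ W1ᗮ
  generalize Module.finrank ℝ W2ᗮ = a at *
  generalize Module.finrank ℝ W3ᗮ = b at *
  generalize Module.finrank ℝ W1ᗮ = c at *
  let g : Euc n →ₗ[ℝ] (Fin n → ℝ) := LinearMap.pi fun l =>
    if h : l.val < a then (bX.coord ⟨l, h⟩).comp (qt W2 : Euc n →ₗ[ℝ] W2ᗮ) else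
      if h' : l.val < a + b then (bY.coord ⟨l - a, by omega⟩).comp (qt W3 : Euc n →ₗ[ℝ] W3ᗮ) else
        (bZ.coord ⟨l - (a + b), by have := l.2; omega⟩).comp (qt W1 : Euc n →ₗ[ℝ] W1ᗮ)
  have g2 : ∀ x, (∀ l : Fin n, l.val < a → g x l = 0) ↔ x ∈ W2 := by
    intro x
    rw [← qt_eq_zero, ← bX.forall_coord_eq_zero_iff]
    refine ⟨fun h k => ?_, fun h l hl => ?_⟩
    · have := h ⟨k, by have := k.2; omega⟩ k.2
      simpa [g] using this
    · simpa [g, hl] using h ⟨l, hl⟩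
  have g3 : ∀ x, (∀ l : Fin n, a ≤ l.val ∧ l.val + (c - 1) + 1 < n → g x l = 0) ↔ x ∈ W3 := by
    intro x
    rw [← qt_eq_zero, ← bY.forall_coord_eq_zero_iff]
    refine ⟨fun h k => ?_, fun h l hl => ?_⟩
    · have := h ⟨a + k, by have := k.2; omega⟩ ⟨by simp, by have := k.2; simp only; omega⟩
      simpa [g] using this
    · have h1 : ¬ l.val < a := by omega
      have h2 : l.val < a + b := by omega
      simpa [g, h1, h2] using h ⟨l - a, by omega⟩
  have g1 : ∀ x, (∀ l : Fin n, n ≤ l.val + (c - 1) + 1 → g x l = 0) ↔ x ∈ W1 := by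
    intro x
    rw [← qt_eq_zero, ← bZ.forall_coord_eq_zero_iff]
    refine ⟨fun h k => ?_, fun h l hl => ?_⟩
    · have := h ⟨a + b + k, by have := k.2; omega⟩ (by simp only; omega)
      have h1 : ¬ a + b + k.val < a := by omega
      simpa [g, h1] using this
    · have h1 : ¬ l.val < a := by omega
      have h2 : ¬ l.val < a + b := by omega
      simpa [g, h1, h2] using h ⟨l - (a + b), by have := l.2; omega⟩
  obtain ⟨h, k1, k2, k3, k4⟩ := exists_isoId_linear g (fun x hx =>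
    h0 x ((g1 x).mp fun l _ => congrFun hx l) ((g2 x).mp fun l _ => congrFun hx l)
      ((g3 x).mp fun l _ => congrFun hx l))
  refine ⟨a, c - 1, h, pa, by omega, k1, k2, k3, fun w => ?_, fun w => ?_, fun w => ?_⟩
  · simp only [mem_cs, k4, g1]
  · simp only [mem_cs, k4, g2]
  · simp only [mem_cs, k4, g3]

theorem norm_dg_sq (d : Fin n → ℝ) (x : Euc n) : ‖dg d x‖ ^ 2 = ∑ l, (d l * x l) ^ 2 :=
  EuclideanSpace.real_norm_sq_eq _

theorem norm_dg_le {d e : Fin n → ℝ} {x : Euc n} {c : ℝ} (hc : 0 ≤ c)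
    (h : ∀ l, |d l * x l| ≤ c * |e l * x l|) : ‖dg d x‖ ≤ c * ‖dg e x‖ := by
  apply le_of_sq_le_sq _ (by positivity)
  rw [mul_pow, norm_dg_sq, norm_dg_sq, Finset.mul_sum]
  refine Finset.sum_le_sum fun l _ => ?_
  rw [← mul_pow]
  apply sq_le_sq.mpr
  rw [abs_mul c, abs_of_nonneg hc]
  exact h l

theorem dg_one (x : Euc n) : dg (fun _ => 1) x = x := by ext l; simp [dg_apply]

theorem body_dg (p : Fin n → Prop) {d : Fin n → ℝ} (hd : ∀ l, 1 / 4 ≤ d l) :
    Body (cs p) (cs p) (nball (cs p) 0 (dg d)) := by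
  refine body_nball (flat_self _) (cs p).zero_mem 4 fun w => ?_
  conv_lhs => rw [← dg_one w]
  refine norm_dg_le (by norm_num) fun l => ?_
  rw [one_mul, abs_mul, abs_of_nonneg (a := d l) (by linarith [hd l])]
  nlinarith [hd l, abs_nonneg (w l)]

theorem pierce_dg {p q : Fin n → Prop} {d e : Fin n → ℝ} (hd : ∀ l, 0 ≤ d l) (he : ∀ l, 0 ≤ e l)
    (h : ∀ l, ¬ p l → ¬ q l → e l ≤ 3 / 4 * d l) :
    nball (cs p) 0 (dg d) ∩ cs q ⊆ rint (cs q) (nball (cs q) 0 (dg e)) := by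
  rintro x ⟨⟨x1, x2⟩, x3⟩
  refine mem_rint_nball_of_lt x3 ?_
  rw [sub_zero] at x2 ⊢
  have := norm_dg_le (d := e) (e := d) (x := x) (c := 3 / 4) (by norm_num) (fun l => by
    by_cases hp : p l
    · simp [mem_cs.mp x1 l hp]
    by_cases hq : q l
    · simp [mem_cs.mp x3 l hq]
    rw [abs_mul, abs_mul, abs_of_nonneg (hd l), abs_of_nonneg (he l), ← mul_assoc]
    exact mul_le_mul_of_nonneg_right (h l hp hq) (abs_nonneg _))
  linarith

theorem mem_rbd_dg {p : Fin n → Prop} {d : Fin n → ℝ} {x : Euc n} :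
    x ∈ rbd (cs p : Set (Euc n)) (nball (cs p) 0 (dg d)) ↔
      ∑ l, (d l * x l) ^ 2 = 1 ∧ ∀ l, p l → x l = 0 := by
  rw [mem_rbd_nball (flat_self _) (cs p).zero_mem, sub_zero, ← norm_dg_sq, and_comm,
    pow_eq_one_iff_of_nonneg (norm_nonneg _) two_ne_zero]
  rfl

/-- The standard triple is cyclic. -/
theorem exists_standard (i j : ℕ) (hn : i + j + 2 ≤ n) : ∃ S1 S2 S3 : Set (Euc n),
    Cyc (cs fun l => n ≤ l.val + j + 1) (cs fun l => l.val < i)
      (cs fun l => i ≤ l.val ∧ l.val + j + 1 < n) S1 S2 S3 ∧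
    rbd (cs fun l : Fin n => n ≤ l.val + j + 1) S1 = K1 j n ∧
    rbd (cs fun l : Fin n => l.val < i) S2 = K2 i n ∧
    rbd (cs fun l : Fin n => i ≤ l.val ∧ l.val + j + 1 < n) S3 = K3 i j n := by
  let d3 : Fin n → ℝ := fun l => if l.val < i then 1 else 1 / 4
  have h3 : ∀ l, 1 / 4 ≤ d3 l := fun l => by simp only [d3]; split_ifs <;> norm_num
  have z : ∀ (p : Fin n → Prop) (d : Fin n → ℝ), (0 : Euc n) ∈ nball (cs p) 0 (dg d) :=
    fun p d => ⟨(cs p).zero_mem, by simp⟩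
  refine ⟨nball _ 0 (dg fun _ => 1 / 2), nball _ 0 (dg fun _ => 1 / 3), nball _ 0 (dg d3),
    ⟨body_dg _ (fun _ => by norm_num), body_dg _ (fun _ => by norm_num), body_dg _ h3,
      z _ _, z _ _, z _ _, ?_, ?_, ?_⟩, ?_, ?_, ?_⟩
  · exact pierce_dg (fun _ => by norm_num) (fun _ => by norm_num) (fun _ _ _ => by norm_num)
  · exact pierce_dg (fun _ => by norm_num) (fun l => by linarith [h3 l])
      (fun l h _ => by simp only [d3, if_neg h]; norm_num)
  · refine pierce_dg (fun l => by linarith [h3 l]) (fun _ => by norm_num) (fun l h h' => ?_)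
    have : l.val < i := by omega
    simp only [d3, if_pos this]
    norm_num
  · ext x
    rw [mem_rbd_dg, K1, mem_ofPred_eq]
    refine and_congr_left fun h => ?_
    have : ∑ l, (1 / 2 * x l) ^ 2 = (∑ l : Fin n with l.val + j + 1 < n, x l ^ 2) / 4 := by
      rw [Finset.sum_filter, Finset.sum_div]
      refine Finset.sum_congr rfl fun l _ => ?_
      split_ifs with k
      · ring
      · simp [h l (not_lt.mp k)]
    rw [this]
    constructor <;> intro _ <;> linarith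
  · ext x
    rw [mem_rbd_dg, K2, mem_ofPred_eq]
    refine and_congr_left fun h => ?_
    have : ∑ l, (1 / 3 * x l) ^ 2 = (∑ l : Fin n with i ≤ l.val, x l ^ 2) / 9 := by
      rw [Finset.sum_filter, Finset.sum_div]
      refine Finset.sum_congr rfl fun l _ => ?_
      split_ifs with k
      · ring
      · simp [h l (not_le.mp k)]
    rw [this]
    constructor <;> intro _ <;> linarith
  · ext x
    rw [mem_rbd_dg, K3, mem_ofPred_eq]
    simp only [and_imp]
    refine and_congr_left fun h => ?_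
    have : ∑ l, (d3 l * x l) ^ 2 = ∑ l : Fin n with l.val < i, x l ^ 2 +
        (∑ l : Fin n with n ≤ l.val + j + 1, x l ^ 2) / 16 := by
      rw [Finset.sum_filter, Finset.sum_filter, Finset.sum_div, ← Finset.sum_add_distrib]
      refine Finset.sum_congr rfl fun l _ => ?_
      simp only [d3]
      split_ifs with k k' k'
      · omega
      · ring
      · ring
      · simp [h l (not_lt.mp k) (not_le.mp k')]
    rw [this]

/-- Every cyclic triple is isotopic to a member of the standard family. -/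
theorem Cyc.standard {W1 W2 W3 : Submodule ℝ (Euc n)} {B1 B2 B3 : Set (Euc n)}
    (h : Cyc W1 W2 W3 B1 B2 B3) (hc : Crt W1 W2 W3) (n1 : W1 ≠ ⊤) (n2 : W2 ≠ ⊤) (n3 : W3 ≠ ⊤) :
    ∃ i j, 1 ≤ i ∧ i + j + 2 ≤ n ∧
      Reach3 (rbd W1 B1) (rbd W2 B2) (rbd W3 B3) (K1 j n) (K2 i n) (K3 i j n) := by
  obtain ⟨i, j, f, h1, h2, f0, f1, f2, u1, u2, u3⟩ :=
    exists_coords hc (fun x a b c => h.eq_zero a b c) n1 n2 n3
  obtain ⟨S1, S2, S3, s0, s1, s2, s3⟩ := exists_standard i j h2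
  obtain ⟨c1, c2⟩ := h.image f f1 f2 u1 u2 u3
  refine ⟨i, j, h1, h2, ?_⟩
  rw [← s1, ← s2, ← s3]
  exact Reach3.trans ⟨f, f0, rfl, rfl, rfl⟩ (c2.trans (c1.reach s0))

end Pool.Agent.Lib.MP_1a97ab_gt
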