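import Pool.Agent.Lib.MP_1a97ab_gt.Link

set_option autoImplicit false
set_option linter.unusedSectionVars false

open Set Metric Pool.Agent.Shared.Brouwer
open scoped NNReal Topology

namespace Pool.Agent.Lib.MP_1a97ab_gt

variable {V : Type} [NormedAddCommGroup V] [InnerProductSpace ℝ V] [FiniteDimensional ℝ V]
variable {ι : Type} [Fintype ι] [DecidableEq ι]

theorem convexOn_dist_const (p : V) : ConvexOn ℝ univ (fun x : V => dist x p) :=
  convexOn_univ_dist p

/-- Without a cyclic triple through a point there are convex functions ordering the bodies. -/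
theorem exists_convex {B : ι → Set V} (hB : ∀ i, IsCompact (B i)) {E : ι → ι → Prop}
    (hasym : ∀ k i, E k i → ¬ E i k)
    (htot : ∀ i k, i ≠ k → (B i ∩ B k).Nonempty → E i k ∨ E k i)
    (hcyc : ∀ p i j k, E i j → E j k → E k i → p ∈ B i → p ∈ B j → p ∈ B k → False) :
    ∃ φ : ι → V → ℝ, (∀ i, Continuous (φ i) ∧ ConvexOn ℝ univ (φ i)) ∧
      ∀ k i, E k i → ∀ x ∈ B k, x ∈ B i → φ i x < φ k x := by
  classical
  have key : ∃ φ : ι → V → ℝ, (∀ i, Continuous (φ i) ∧ ConvexOn ℝ univ (φ i)) ∧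
      ∀ k i, E k i → ∀ x ∈ B k, x ∈ B i → φ i x ≤ φ k x ∧ (x ∈ ⋃ i, B i → φ i x < φ k x) := by
    refine (isCompact_iUnion hB).induction_on (p := fun U => ∃ φ : ι → V → ℝ,
      (∀ i, Continuous (φ i) ∧ ConvexOn ℝ univ (φ i)) ∧
      ∀ k i, E k i → ∀ x ∈ B k, x ∈ B i → φ i x ≤ φ k x ∧ (x ∈ U → φ i x < φ k x)) ?_ ?_ ?_ ?_
    · exact ⟨fun _ _ => 0, fun i => ⟨continuous_const, convexOn_const 0 convex_univ⟩,
        fun k i _ x _ _ => ⟨le_rfl, fun h => h.elim⟩⟩
    · rintro s t hst ⟨φ, h1, h2⟩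
      exact ⟨φ, h1, fun k i e x a b => ⟨(h2 k i e x a b).1, fun h => (h2 k i e x a b).2 (hst h)⟩⟩
    · rintro s t ⟨φ, h1, h2⟩ ⟨χ, k1, k2⟩
      refine ⟨fun i x => φ i x + χ i x,
        fun i => ⟨(h1 i).1.add (k1 i).1, (h1 i).2.add (k1 i).2⟩, fun k i e x a b => ?_⟩
      obtain ⟨a1, a2⟩ := h2 k i e x a b
      obtain ⟨b1, b2⟩ := k2 k i e x a b
      refine ⟨add_le_add a1 b1, ?_⟩
      rintro (h | h)
      · exact add_lt_add_of_lt_of_le (a2 h) b1
      · exact add_lt_add_of_le_of_lt a1 (b2 h)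
    · intro p _
      have h1 : ∀ᶠ x in 𝓝 p, ∀ j, x ∈ B j → p ∈ B j := by
        rw [Filter.eventually_all]
        intro j
        by_cases hj : p ∈ B j
        · exact Filter.Eventually.of_forall fun _ _ => hj
        · filter_upwards [(hB j).isClosed.isOpen_compl.mem_nhds hj] with x hx hx'
          exact absurd hx' hx
      obtain ⟨ρ, hρ, hb⟩ := Metric.mem_nhds_iff.mp h1
      let c : ι → ℝ := fun i => (Finset.univ.filter fun j => p ∈ B j ∧ E i j).card
      have hc : ∀ k i, E k i → p ∈ B k → p ∈ B i → c i < c k := by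
        intro k i e a b
        simp only [c, Nat.cast_lt]
        apply Finset.card_lt_card
        rw [Finset.ssubset_iff_of_subset]
        · exact ⟨i, by simp [b, e], by simpa using fun _ h => hasym i i h h⟩
        · intro j hj
          simp only [Finset.mem_filter, Finset.mem_univ, true_and] at hj ⊢
          refine ⟨hj.1, ?_⟩
          have : k ≠ j := fun h => hasym k i e (h ▸ hj.2)
          exact (htot k j this ⟨p, a, hj.1⟩).resolve_right fun h => hcyc p i j k hj.2 h e b hj.1 a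
      have hM : ∀ i, c i ≤ Fintype.card ι := fun i => by
        simp only [c, Nat.cast_le]
        exact Finset.card_le_univ _
      refine ⟨ball p ρ, mem_nhdsWithin_of_mem_nhds (ball_mem_nhds p hρ),
        fun i x => c i * max (dist x p) ρ + (Fintype.card ι - c i) * dist x p,
        fun i => ⟨by fun_prop, ?_⟩, fun k i e x a b => ?_⟩
      · exact (((convexOn_dist_const p).sup (convexOn_const ρ convex_univ)).smul
          (Nat.cast_nonneg _)).add ((convexOn_dist_const p).smul (sub_nonneg.mpr (hM i)))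
      · by_cases hx : x ∈ ball p ρ
        · have := hc k i e (hb hx k a) (hb hx i b)
          have hd : dist x p < ρ := hx
          have : c i * max (dist x p) ρ + (Fintype.card ι - c i) * dist x p <
              c k * max (dist x p) ρ + (Fintype.card ι - c k) * dist x p := by
            rw [max_eq_right hd.le]
            nlinarith
          exact ⟨this.le, fun _ => this⟩
        · refine ⟨le_of_eq ?_, fun h => absurd h hx⟩
          have hd : ρ ≤ dist x p := not_lt.mp hx
          simp only [max_eq_left hd]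
          ring
  obtain ⟨φ, h1, h2⟩ := key
  exact ⟨φ, h1, fun k i e x a b => (h2 k i e x a b).2 (mem_iUnion.mpr ⟨k, a⟩)⟩

/-- Replacing one component of a family of convex knots. -/
theorem reach_update {W : ι → Submodule ℝ V} {A C : ι → Set V} (hC : ∀ i, Body (W i) (A i) (C i))
    (i : ι) {D : Set V} (hD : Body (W i) (A i) D) (hDC : D ⊆ C i)
    (hd : ∀ k, k ≠ i → ∀ x ∈ C i, x ∈ rbd (A k) (C k) → x ∈ rint (A i) D)
    (hd' : ∀ k, k ≠ i → ∀ x ∈ C i, x ∈ rbd (A k) (C k) → x ∉ rbd (A i) (C i)) :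
    Reach (fun k => rbd (A k) (C k)) (fun k => rbd (A k) (Function.update C i D k)) := by
  obtain ⟨o, ho⟩ := hD.ne
  let Z : Set V := ⋃ k : {k // k ≠ i}, rbd (A k) (C k)
  have hZ : IsClosed Z := isClosed_iUnion_of_finite fun k => (hC k).isCompact_rbd.isClosed
  obtain ⟨f, f1, f2, f3⟩ := (hC i).move hD (rint_mono hDC ho) ho hZ
    (disjoint_iUnion_right.mpr fun k => disjoint_left.mpr fun x hx hk => hx.2 (hd k k.2 x hx.1 hk))
    (disjoint_iUnion_right.mpr fun k => disjoint_left.mpr fun x hx hk =>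
      hd' k k.2 x (hDC hx.1) hk ⟨hDC hx.1, hx.2⟩)
  refine ⟨f, f1, fun k => ?_⟩
  by_cases hk : k = i
  · subst hk
    simpa using f2
  · simp only [Function.update_of_ne hk]
    rw [image_congr (g := id) (fun z hz => f3 z (mem_iUnion.mpr ⟨⟨k, hk⟩, hz⟩)), image_id]

/-- Without a cyclic triple through a point the bodies can be shrunk to disjoint ones. -/
theorem sweep {W : ι → Submodule ℝ V} {A B : ι → Set V} (hB : ∀ i, Body (W i) (A i) (B i))
    {E : ι → ι → Prop} (hE : ∀ k i, E k i → B k ∩ A i ⊆ rint (A i) (B i))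
    (hasym : ∀ k i, E k i → ¬ E i k)
    (htot : ∀ i k, i ≠ k → (B i ∩ B k).Nonempty → E i k ∨ E k i)
    (hsub : ∀ k i, E k i → ¬ A k ⊆ A i)
    (hcyc : ∀ p i j k, E i j → E j k → E k i → p ∈ B i → p ∈ B j → p ∈ B k → False) :
    ∃ C : ι → Set V, Reach (fun i => rbd (A i) (B i)) (fun i => rbd (A i) (C i)) ∧
      (∀ i, Body (W i) (A i) (C i)) ∧ ∀ i k, i ≠ k → Disjoint (C i) (C k) := by
  classical
  obtain ⟨φ, hφ, hlt⟩ := exists_convex (fun i => (hB i).cpt) hasym htot hcyc
  obtain ⟨δ, hδ, hδ0⟩ : ∃ δ : ℝ, (∀ k i, E k i → ∀ x ∈ B k, x ∈ B i → φ i x + δ ≤ φ k x) ∧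
      0 < δ := by
    have : ∀ᶠ δ in 𝓝[>] (0 : ℝ), ∀ k i, E k i → ∀ x ∈ B k, x ∈ B i → φ i x + δ ≤ φ k x := by
      simp only [Filter.eventually_all]
      intro k i e
      obtain ⟨a, ha, hb⟩ := ((hB k).cpt.inter (hB i).cpt).exists_forall_le'
        (f := fun x => φ k x - φ i x) ((hφ k).1.sub (hφ i).1).continuousOn (a := 0)
        (fun x hx => sub_pos.mpr (hlt k i e x hx.1 hx.2))
      filter_upwards [Ioc_mem_nhdsGT ha] with δ hδ x x1 x2
      linarith [hb x ⟨x1, x2⟩, hδ.2]
    exact (this.and self_mem_nhdsWithin).exists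
  obtain ⟨M, hM⟩ : ∃ M : ℝ, ∀ i, ∀ x ∈ B i, |φ i x| ≤ M := by
    have : ∀ᶠ M in Filter.atTop, ∀ i, ∀ x ∈ B i, |φ i x| ≤ M := by
      rw [Filter.eventually_all]
      intro i
      obtain ⟨a, ha⟩ := (hB i).cpt.exists_bound_of_continuousOn (hφ i).1.continuousOn
      filter_upwards [Filter.eventually_ge_atTop a] with M hM x hx
      exact (ha x hx).trans hM
    exact this.exists
  let P : ι → Set V → ℝ → Prop := fun i C r => Body (W i) (A i) C ∧ C ⊆ B i ∧
    (∀ x ∈ rint (A i) (B i), φ i x < r → x ∈ rint (A i) C) ∧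
    ((∀ x ∈ C, φ i x ≤ r) ∨ ∀ j, E i j → Disjoint C (A j))
  have shrink : ∀ i C r s, P i C r → s ≤ r → ∃ D, D ⊆ C ∧ P i D s := by
    rintro i C r s ⟨p1, p2, p3, -⟩ hs
    by_cases hy : ∃ y ∈ C, φ i y < s
    · obtain ⟨q1, q2⟩ := p1.sublevel (hφ i).1 (hφ i).2 hy
      exact ⟨_, inter_subset_left, q1, inter_subset_left.trans p2,
        fun x hx hx' => q2 x (p3 x hx (by linarith)) hx', Or.inl fun x hx => hx.2⟩
    · obtain ⟨D, d1, d2, d3⟩ := p1.exists_avoid_all (Finset.univ.filter fun j => E i j)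
        (W' := W) (A' := A) (fun j _ => (hB j).flat) (fun j hj => hsub i j (by simpa using hj))
      exact ⟨D, d2, d1, d2.trans p2,
        fun x hx hx' => absurd ⟨x, rint_subset (p3 x hx (by linarith)), hx'⟩ hy,
        Or.inr fun j hj => d3 j (by simpa using hj)⟩
  have valid : ∀ k i C D r s, E k i → P k C r → P i D s → r - δ < s →
      ∀ x ∈ C, x ∈ A i → x ∈ rint (A i) D := by
    rintro k i C D r s e ⟨-, p2, -, p4⟩ ⟨-, -, q3, -⟩ hs x x1 x2
    have hx := hE k i e ⟨p2 x1, x2⟩
    rcases p4 with p4 | p4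
    · exact q3 x hx (by linarith [hδ k i e x (p2 x1) (rint_subset hx), p4 x x1])
    · exact absurd x2 (disjoint_left.mp (p4 i e) x1)
  let Inv : (ι → ℝ) → Prop := fun r => ∃ C : ι → Set V,
    Reach (fun i => rbd (A i) (B i)) (fun i => rbd (A i) (C i)) ∧ ∀ i, P i (C i) (r i)
  have step : ∀ r i s, Inv r → s ≤ r i → (∀ k, r k - δ < s) → (∀ k, r i - δ < r k) →
      Inv (Function.update r i s) := by
    rintro r i s ⟨C, c1, c2⟩ hs h1 h2
    obtain ⟨D, d1, d2⟩ := shrink i (C i) (r i) s (c2 i) hs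
    have hd : ∀ k, k ≠ i → ∀ x ∈ C i, x ∈ rbd (A k) (C k) → x ∈ rint (A i) D := by
      intro k hk x x1 x2
      rcases htot k i hk ⟨x, (c2 k).2.1 x2.1, (c2 i).2.1 x1⟩ with e | e
      · exact valid k i _ _ _ _ e (c2 k) d2 (h1 k) x x2.1 ((c2 i).1.sub x1)
      · exact absurd (valid i k _ _ _ _ e (c2 i) (c2 k) (h2 k) x x1 ((c2 k).1.sub x2.1)) x2.2
    refine ⟨Function.update C i D, c1.trans (reach_update (fun k => (c2 k).1) i d2.1 d1 hd
      fun k hk x x1 x2 x3 => x3.2 (rint_mono d1 (hd k hk x x1 x2))), fun k => ?_⟩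
    by_cases hk : k = i
    · subst hk
      simpa using d2
    · simpa only [Function.update_of_ne hk] using c2 k
  have down : ∀ r : ℝ, Inv (fun _ => r) → Inv (fun _ => r - δ / 2) := by
    intro r hr
    have : ∀ s : Finset ι, Inv (fun i => if i ∈ s then r - δ / 2 else r) := by
      intro s
      induction s using Finset.induction_on with
      | empty => simpa using hr
      | insert a s ha ih =>
        have := step _ a (r - δ / 2) ih (by simp only [if_neg ha]; linarith)
          (fun k => by split_ifs <;> linarith) (fun k => by split_ifs <;> linarith)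
        convert this using 2 with i
        by_cases hi : i = a
        · simp [hi]
        · simp [hi]
    simpa using this Finset.univ
  have all : ∀ t : ℕ, Inv (fun _ => M - t * (δ / 2)) := by
    intro t
    induction t with
    | zero =>
      exact ⟨B, Reach.refl _, fun i => ⟨hB i, Subset.rfl, fun x hx _ => hx,
        Or.inl fun x hx => by simpa using (abs_le.mp (hM i x hx)).2⟩⟩
    | succ t ih =>
      convert down _ ih using 2
      push_cast
      ring
  obtain ⟨t, ht⟩ := exists_nat_gt (2 * M / (δ / 2))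
  rw [div_lt_iff₀ (by positivity)] at ht
  obtain ⟨C, c1, c2⟩ := all t
  have off : ∀ i j, E i j → Disjoint (C i) (A j) := by
    intro i
    refine (c2 i).2.2.2.resolve_left fun h => ?_
    obtain ⟨o, ho⟩ := (c2 i).1.ne
    have h1 := h o (rint_subset ho)
    have h2 := (abs_le.mp (hM i o ((c2 i).2.1 (rint_subset ho)))).1
    linarith
  refine ⟨C, c1, fun i => (c2 i).1, fun i k hik => disjoint_left.mpr fun x x1 x2 => ?_⟩
  rcases htot i k hik ⟨x, (c2 i).2.1 x1, (c2 k).2.1 x2⟩ with e | e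
  · exact disjoint_left.mp (off i k e) x1 ((c2 k).1.sub x2)
  · exact disjoint_left.mp (off k i e) x2 ((c2 i).1.sub x1)

end Pool.Agent.Lib.MP_1a97ab_gt
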