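import Pool.Agent.Lib.MP_1a97ab_gt.Sweep

set_option autoImplicit false
set_option linter.unusedSectionVars false

open Set Metric Pool.Agent.Shared.Brouwer
open scoped NNReal Topology

namespace Pool.Agent.Lib.MP_1a97ab_gt

variable {V : Type} [NormedAddCommGroup V] [InnerProductSpace ℝ V] [FiniteDimensional ℝ V]
variable {W W' : Submodule ℝ V} {A B : Set V}

theorem rint_image (f : V ≃ₜ V) : rint (f '' A) (f '' B) = f '' rint A B := by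
  ext y
  obtain ⟨x, rfl⟩ := f.surjective y
  rw [f.injective.mem_set_image]
  unfold rint
  simp only [mem_ofPred_eq, f.injective.mem_set_image]
  rw [← f.isEmbedding.map_nhdsWithin_eq, Filter.mem_map, f.injective.preimage_image]

theorem rbd_image (f : V ≃ₜ V) : rbd (f '' A) (f '' B) = f '' rbd A B := by
  rw [rbd, rint_image, rbd, image_sdiff f.injective]

theorem Body.image (h : Body W A B) (f : V ≃ₜ V) (e : V → V) (h1 : ∀ x y, f x - f y = e (x - y))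
    (h2 : ∀ (t : ℝ) w, e (t • w) = t • e w) (h3 : ∀ w, e w ∈ W' ↔ w ∈ W) :
    Body W' (f '' A) (f '' B) := by
  refine ⟨?_, ?_, h.cpt.image f.continuous, image_mono h.sub, ?_⟩
  · rintro _ ⟨a, ha, rfl⟩ y
    obtain ⟨x, rfl⟩ := f.surjective y
    rw [f.injective.mem_set_image, h1, h3, h.flat a ha]
  · rintro _ ⟨x, hx, rfl⟩ _ ⟨y, hy, rfl⟩ a b ha hb hab
    refine ⟨_, h.conv hx hy ha hb hab, ?_⟩
    have ea : a = 1 - b := by linarith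
    have e1 : a • x + b • y - x = b • (y - x) := by rw [ea]; module
    have := h1 (a • x + b • y) x
    rw [e1, h2, ← h1, sub_eq_iff_eq_add] at this
    rw [this, ea]
    module
  · rw [rint_image]
    exact h.ne.image _

theorem rint_open {x : V} (hx : x ∈ rint A B) :
    ∃ ε > 0, ∀ y ∈ A, dist y x < ε → y ∈ rint A B := by
  obtain ⟨ε, hε, h⟩ := Metric.isOpen_iff.mp (isOpen_nhdsWithin_set A B) x hx.2
  exact ⟨ε, hε, fun y hy hd => ⟨hy, h hd⟩⟩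

/-- Three sets are carried to three sets by an ambient isotopy. -/
def Reach3 (K1 K2 K3 L1 L2 L3 : Set V) : Prop :=
  ∃ h : V ≃ₜ V, IsoId h ∧ h '' K1 = L1 ∧ h '' K2 = L2 ∧ h '' K3 = L3

theorem Reach3.trans {K1 K2 K3 L1 L2 L3 M1 M2 M3 : Set V} (h : Reach3 K1 K2 K3 L1 L2 L3)
    (k : Reach3 L1 L2 L3 M1 M2 M3) : Reach3 K1 K2 K3 M1 M2 M3 := by
  obtain ⟨h, h0, rfl, rfl, rfl⟩ := h
  obtain ⟨k, k0, rfl, rfl, rfl⟩ := k
  exact ⟨h.trans k, h0.trans k0, (image_image k h _).symm, (image_image k h _).symm,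
    (image_image k h _).symm⟩

theorem Reach3.rot {K1 K2 K3 L1 L2 L3 : Set V} (h : Reach3 K1 K2 K3 L1 L2 L3) :
    Reach3 K2 K3 K1 L2 L3 L1 := by
  obtain ⟨h, h0, h1, h2, h3⟩ := h
  exact ⟨h, h0, h2, h3, h1⟩

variable {W1 W2 W3 : Submodule ℝ V} {B1 B2 B3 D1 S1 S2 S3 : Set V}

theorem Cyc.move (h : Cyc W1 W2 W3 B1 B2 B3) (h' : Cyc W1 W2 W3 D1 B2 B3) :
    Reach3 (rbd W1 B1) (rbd W2 B2) (rbd W3 B3) (rbd W1 D1) (rbd W2 B2) (rbd W3 B3) := by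
  have key : ∀ {B D : Set V}, Cyc W1 W2 W3 B B2 B3 → Cyc W1 W2 W3 D B2 B3 →
      Disjoint (B \ rint W1 D) (rbd W2 B2 ∪ rbd W3 B3) := by
    intro B D k k'
    rw [disjoint_left]
    rintro x hx (hx' | hx')
    · exact hx'.2 (k.p12 ⟨hx.1, k.b2.sub hx'.1⟩)
    · exact hx.2 (k'.p31 ⟨hx'.1, k.b1.sub hx.1⟩)
  obtain ⟨f, f1, f2, f3⟩ := h.b1.move h'.b1 h.r1 h'.r1
    (h.b2.isCompact_rbd.isClosed.union h.b3.isCompact_rbd.isClosed) (key h h') (key h' h)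
  refine ⟨f, f1, f2, ?_, ?_⟩
  · rw [image_congr (g := id) (fun z hz => f3 z (Or.inl hz)), image_id]
  · rw [image_congr (g := id) (fun z hz => f3 z (Or.inr hz)), image_id]

theorem exists_thin (h0 : ∀ x ∈ W1, x ∈ W2 → x ∈ W3 → x = 0) {P : Set V}
    (hP : Bornology.IsBounded P) {ε : ℝ} (hε : 0 < ε) :
    ∃ D, Body W1 W1 D ∧ 0 ∈ D ∧ (∀ x ∈ P, x ∈ W1 → x ∈ W3 → x ∈ rint W1 D) ∧
      ∀ x ∈ D, x ∈ W2 → dist x 0 < ε := by
  obtain ⟨K, hK, hanti⟩ := LinearMap.exists_antilipschitzWith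
    ((qt W3 : V →ₗ[ℝ] W3ᗮ).comp (W1 ⊓ W2).subtype) (by
      rw [LinearMap.ker_eq_bot']
      intro w hw
      exact Subtype.ext (h0 w w.2.1 w.2.2 (qt_eq_zero.mp hw)))
  have hK' : (0 : ℝ) < K := hK
  obtain ⟨R, hR0, hR⟩ := hP.subset_ball_lt 0 0
  let η : ℝ := ε / (2 * K)
  have hη : 0 < η := by positivity
  let L : V →L[ℝ] V × W3ᗮ := (R⁻¹ • ContinuousLinearMap.id ℝ V).prod (η⁻¹ • qt W3)
  have hL : ∀ x, ‖L x‖ = max (R⁻¹ * ‖x‖) (η⁻¹ * ‖qt W3 x‖) := by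
    intro x
    simp [L, Prod.norm_def, norm_smul, abs_of_pos hR0, abs_of_pos hη]
  refine ⟨nball W1 0 L, body_nball (flat_self W1) W1.zero_mem R fun w => ?_,
    ⟨W1.zero_mem, by simp⟩, fun x hx x1 x3 => mem_rint_nball_of_lt x1 ?_, fun x hx x2 => ?_⟩
  · rw [hL, ← inv_mul_le_iff₀ hR0]
    exact le_max_left _ _
  · rw [sub_zero, hL, qt_eq_zero.mpr x3, norm_zero, mul_zero, max_lt_iff, inv_mul_lt_iff₀ hR0,
      mul_one]
    exact ⟨mem_ball_zero_iff.mp (hR hx), zero_lt_one⟩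
  · have h1 := hx.2
    rw [sub_zero, hL, max_le_iff, inv_mul_le_iff₀ hη, mul_one] at h1
    have h2 := hanti.le_mul_norm (map_zero _) ⟨x, hx.1, x2⟩
    have h3 : ‖x‖ ≤ K * ‖qt W3 x‖ := h2
    have h4 : (K : ℝ) * η = ε / 2 := by simp only [η]; field_simp
    rw [dist_zero_right]
    nlinarith [h1.2]

/-- All cyclic triples in the same three subspaces are isotopic. -/
theorem Cyc.reach (h : Cyc W1 W2 W3 B1 B2 B3) (h' : Cyc W1 W2 W3 S1 S2 S3) :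
    Reach3 (rbd W1 B1) (rbd W2 B2) (rbd W3 B3) (rbd W1 S1) (rbd W2 S2) (rbd W3 S3) := by
  obtain ⟨ε1, e1, a1⟩ := rint_open h.rot.r1
  obtain ⟨ε2, e2, a2⟩ := rint_open h'.rot.r1
  obtain ⟨ε3, e3, a3⟩ := rint_open h.rot.rot.r1
  obtain ⟨ε4, e4, a4⟩ := rint_open h'.rot.rot.r1
  obtain ⟨D1, d1, d2, d3, d4⟩ := exists_thin (fun x a b c => h.eq_zero a b c)
    (h.b3.cpt.isBounded.union h'.b3.cpt.isBounded) (lt_min e1 e2)
  obtain ⟨D2, f1, f2, f3, f4⟩ := exists_thin (fun x a b c => h.rot.eq_zero a b c)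
    d1.cpt.isBounded (lt_min e3 e4)
  have p1 : B3 ∩ W1 ⊆ rint W1 D1 := fun x hx => d3 x (Or.inl hx.1) hx.2 (h.b3.sub hx.1)
  have p2 : S3 ∩ W1 ⊆ rint W1 D1 := fun x hx => d3 x (Or.inr hx.1) hx.2 (h'.b3.sub hx.1)
  have p3 : D1 ∩ W2 ⊆ rint W2 D2 := fun x hx => f3 x hx.1 hx.2 (d1.sub hx.1)
  have c1 : Cyc W1 W2 W3 D1 B2 B3 := ⟨d1, h.b2, h.b3, d2, h.z2, h.z3,
    fun x hx => a1 x hx.2 ((d4 x hx.1 hx.2).trans_le (min_le_left _ _)), h.p23, p1⟩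
  have c2 : Cyc W1 W2 W3 D1 D2 B3 := ⟨d1, f1, h.b3, d2, f2, h.z3, p3,
    fun x hx => a3 x hx.2 ((f4 x hx.1 hx.2).trans_le (min_le_left _ _)), p1⟩
  have c3 : Cyc W1 W2 W3 D1 D2 S3 := ⟨d1, f1, h'.b3, d2, f2, h'.z3, p3,
    fun x hx => a4 x hx.2 ((f4 x hx.1 hx.2).trans_le (min_le_right _ _)), p2⟩
  have c4 : Cyc W1 W2 W3 D1 S2 S3 := ⟨d1, h'.b2, h'.b3, d2, h'.z2, h'.z3,
    fun x hx => a2 x hx.2 ((d4 x hx.1 hx.2).trans_le (min_le_right _ _)), h'.p23, p2⟩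
  exact (h.move c1).trans ((c1.rot.move c2.rot).rot.rot.trans
    ((c2.rot.rot.move c3.rot.rot).rot.trans ((c3.rot.move c4.rot).rot.rot.trans (c4.move h'))))

/-- Linear images of cyclic triples. -/
theorem Cyc.image (h : Cyc W1 W2 W3 B1 B2 B3) (f : V ≃ₜ V) (h1 : ∀ x y, f x - f y = f (x - y))
    (h2 : ∀ (t : ℝ) w, f (t • w) = t • f w) {U1 U2 U3 : Submodule ℝ V}
    (u1 : ∀ w, f w ∈ U1 ↔ w ∈ W1) (u2 : ∀ w, f w ∈ U2 ↔ w ∈ W2) (u3 : ∀ w, f w ∈ U3 ↔ w ∈ W3) :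
    Cyc U1 U2 U3 (f '' B1) (f '' B2) (f '' B3) ∧
      Reach3 (f '' rbd W1 B1) (f '' rbd W2 B2) (f '' rbd W3 B3)
        (rbd U1 (f '' B1)) (rbd U2 (f '' B2)) (rbd U3 (f '' B3)) := by
  have key : ∀ {U W : Submodule ℝ V}, (∀ w, f w ∈ U ↔ w ∈ W) → (U : Set V) = f '' W := by
    intro U W u
    ext y
    obtain ⟨x, rfl⟩ := f.surjective y
    rw [f.injective.mem_set_image]
    exact u x
  have f0 : f 0 = 0 := by simpa using (h1 0 0).symm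
  have pp : ∀ {U W : Submodule ℝ V} {B C : Set V}, (∀ w, f w ∈ U ↔ w ∈ W) → C ∩ W ⊆ rint W B →
      f '' C ∩ U ⊆ rint U (f '' B) := by
    intro U W B C u p
    rw [key u, rint_image, ← image_inter f.injective]
    exact image_mono p
  refine ⟨⟨?_, ?_, ?_, ⟨0, h.z1, f0⟩, ⟨0, h.z2, f0⟩, ⟨0, h.z3, f0⟩, pp u2 h.p12, pp u3 h.p23,
    pp u1 h.p31⟩, Homeomorph.refl V, IsoId.refl, ?_, ?_, ?_⟩
  · rw [key u1]; exact h.b1.image f f h1 h2 u1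
  · rw [key u2]; exact h.b2.image f f h1 h2 u2
  · rw [key u3]; exact h.b3.image f f h1 h2 u3
  · rw [key u1, rbd_image]; simp
  · rw [key u2, rbd_image]; simp
  · rw [key u3, rbd_image]; simp

end Pool.Agent.Lib.MP_1a97ab_gt
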